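import Pool.Agent.Helper540.HC.Defs

open MeasureTheory ProbabilityTheory Set Filter
open scoped ENNReal NNReal Topology

namespace HC



theorem He_succ' (n : ℕ) : He (n + 1) = Polynomial.X * He n - Polynomial.derivative (He n) := by
  unfold He
  rw [Polynomial.hermite_succ, Polynomial.map_sub, Polynomial.map_mul, Polynomial.map_X,
    Polynomial.derivative_map]

theorem He_zero' : He 0 = 1 := by
  unfold He
  rw [Polynomial.hermite_zero]
  simp

theorem He_deriv' (n : ℕ) : Polynomial.derivative (He (n + 1)) =
    Polynomial.C ((n : ℝ) + 1) * He n := by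
  induction n with
  | zero =>
    rw [He_succ', He_zero']
    simp
  | succ n ih =>
    rw [He_succ' (n + 1), Polynomial.derivative_sub, Polynomial.derivative_mul,
      Polynomial.derivative_X, ih, Polynomial.derivative_mul, Polynomial.derivative_C, He_succ' n]
    simp only [Polynomial.C_add, Nat.cast_add, Nat.cast_one, Polynomial.C_1]
    ring

theorem He_props : (He 0 = 1 ∧ He 1 = Polynomial.X ∧
    ∀ k : ℕ, He (k + 2) = Polynomial.X * He (k + 1) - Polynomial.C ((k : ℝ) + 1) * He k) ∧
    ∀ k : ℕ, ou1 (He k) = - Polynomial.C (k : ℝ) * He k := by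
  refine ⟨⟨He_zero', ?_, ?_⟩, ?_⟩
  · rw [He_succ' 0, He_zero']
    simp
  · intro k
    rw [He_succ' (k + 1), He_deriv']
  · intro k
    unfold ou1
    rcases k with _ | k
    · rw [He_zero']
      simp
    · rw [He_deriv', Polynomial.derivative_mul, Polynomial.derivative_C, He_succ' k]
      simp only [Nat.cast_add, Nat.cast_one]
      ring

end HC
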