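import Pool.Agent.Helper540.HC.Defs

open MeasureTheory ProbabilityTheory Set Filter
open scoped ENNReal NNReal Topology

namespace HC



/-- embedding of the `j`-th block -/
def blk_emb (n K : ℕ) (j : Fin n) : Fin K ↪ Fin (n * K) :=
  ⟨fun k => finProdFinEquiv (j, k), fun k k' h => by
    have := finProdFinEquiv.injective h
    exact (Prod.ext_iff.1 this).2⟩

/-- blocks of a point of the cube -/
def blk_equiv (n K : ℕ) : (Fin (n * K) → Bool) ≃ (Fin n → (Fin K → Bool)) where
  toFun x := fun j k => x (finProdFinEquiv (j, k))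
  invFun y := fun i => y (finProdFinEquiv.symm i).1 (finProdFinEquiv.symm i).2
  left_inv x := by
    funext i
    show x (finProdFinEquiv (finProdFinEquiv.symm i)) = x i
    rw [Equiv.apply_symm_apply]
  right_inv y := by
    funext j k
    simp

/-- coefficients -/
noncomputable def blk_c (n K : ℕ) (γ : ℕ → ℝ) (S : Finset (Fin (n * K))) : ℝ :=
  ∑ j : Fin n, ∑ A : Finset (Fin K), if S = A.map (blk_emb n K j) then γ A.card else 0

theorem blk_key (n K : ℕ) (γ : ℕ → ℝ) (G : Finset (Fin (n * K)) → ℝ) :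
    ∑ S : Finset (Fin (n * K)), blk_c n K γ S * G S =
      ∑ j : Fin n, ∑ A : Finset (Fin K), γ A.card * G (A.map (blk_emb n K j)) := by
  simp only [blk_c, Finset.sum_mul, ite_mul, zero_mul]
  rw [Finset.sum_comm]
  refine Finset.sum_congr rfl fun j _ => ?_
  rw [Finset.sum_comm]
  refine Finset.sum_congr rfl fun A _ => ?_
  rw [Finset.sum_ite_eq' Finset.univ (A.map (blk_emb n K j)) (fun S => γ A.card * G S),
    if_pos (Finset.mem_univ _)]

theorem blk_walsh (n K : ℕ) (x : Fin (n * K) → Bool) (j : Fin n) (A : Finset (Fin K)) :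
    ∏ i ∈ A.map (blk_emb n K j), (if x i then (1 : ℝ) else -1) =
      walsh A (blk_equiv n K x j) := by
  rw [Finset.prod_map]
  rfl

theorem block (n K d : ℕ) (γ : ℕ → ℝ) (hγ : ∀ k, d < k → γ k = 0) :
    ∃ c : Finset (Fin (n * K)) → ℝ, (∀ S, d < S.card → c S = 0) ∧
      (∀ g : ℝ → ℝ, ∑ x : Fin (n * K) → Bool,
          g (∑ S : Finset (Fin (n * K)), c S * ∏ i ∈ S, (if x i then (1 : ℝ) else -1)) =
        ∑ x : Fin n → (Fin K → Bool),
          g (∑ j, ∑ A : Finset (Fin K), γ A.card * walsh A (x j))) ∧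
      (∀ g : ℝ → ℝ, ∑ x : Fin (n * K) → Bool,
          g (∑ S : Finset (Fin (n * K)), (S.card : ℝ) * c S *
            ∏ i ∈ S, (if x i then (1 : ℝ) else -1)) =
        ∑ x : Fin n → (Fin K → Bool),
          g (∑ j, ∑ A : Finset (Fin K), (A.card : ℝ) * γ A.card * walsh A (x j))) := by
  refine ⟨blk_c n K γ, ?_, ?_, ?_⟩
  · intro S hS
    unfold blk_c
    refine Finset.sum_eq_zero fun j _ => Finset.sum_eq_zero fun A _ => ?_
    split_ifs with h
    · apply hγ
      rw [h, Finset.card_map] at hS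
      exact hS
    · rfl
  · intro g
    refine Fintype.sum_equiv (blk_equiv n K) _ _ fun x => ?_
    rw [blk_key]
    simp only [blk_walsh]
  · intro g
    refine Fintype.sum_equiv (blk_equiv n K) _ _ fun x => ?_
    have h1 : ∑ S : Finset (Fin (n * K)), (S.card : ℝ) * blk_c n K γ S *
        ∏ i ∈ S, (if x i then (1 : ℝ) else -1) =
        ∑ S : Finset (Fin (n * K)), blk_c n K γ S * ((S.card : ℝ) *
          ∏ i ∈ S, (if x i then (1 : ℝ) else -1)) :=
      Finset.sum_congr rfl fun S _ => by ring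
    rw [h1, blk_key]
    simp only [blk_walsh, Finset.card_map]
    congr 1
    refine Finset.sum_congr rfl fun j _ => Finset.sum_congr rfl fun A _ => ?_
    ring

end HC
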