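import Pool.Agent.Helper540.HC.Defs

open MeasureTheory ProbabilityTheory Set Filter
open scoped ENNReal NNReal Topology

namespace HC


/-- law of `SK K` -/
noncomputable def cltNu (K : ℕ) : Measure ℝ :=
  ∑ y : Fin K → Bool, ((2 : ℝ≥0∞) ^ K)⁻¹ • Measure.dirac (SK K y)

instance cltNu_prob (K : ℕ) : IsProbabilityMeasure (cltNu K) := by
  constructor
  unfold cltNu
  rw [Measure.finsetSum_apply]
  simp only [Measure.smul_apply, measure_univ, smul_eq_mul, mul_one]
  rw [Finset.sum_const, Finset.card_univ, Fintype.card_fun, Fintype.card_bool, Fintype.card_fin,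
    nsmul_eq_mul]
  push_cast
  exact ENNReal.mul_inv_cancel (by positivity) (ENNReal.pow_ne_top ENNReal.ofNat_ne_top)

theorem cltNu_int {E : Type} [NormedAddCommGroup E] [NormedSpace ℝ E] [CompleteSpace E]
    (K : ℕ) (f : ℝ → E) :
    ∫ x, f x ∂(cltNu K) = ∑ y : Fin K → Bool, ((2 : ℝ) ^ K)⁻¹ • f (SK K y) := by
  unfold cltNu
  rw [integral_finsetSum_measure]
  · apply Finset.sum_congr rfl
    intro y _
    rw [integral_smul_measure, integral_dirac]
    congr 1
    rw [ENNReal.toReal_inv, ENNReal.toReal_pow]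
    norm_num
  · intro y _
    exact (integrable_dirac (by simp)).smul_measure (by simp)

/-- Rademacher law -/
noncomputable def cltP : Measure ℝ :=
  (2 : ℝ≥0∞)⁻¹ • Measure.dirac 1 + (2 : ℝ≥0∞)⁻¹ • Measure.dirac (-1)

instance cltP_prob : IsProbabilityMeasure cltP := by
  constructor
  unfold cltP
  rw [Measure.add_apply]
  simp only [Measure.smul_apply, measure_univ, smul_eq_mul, mul_one]
  exact ENNReal.inv_two_add_inv_two

theorem cltP_int {E : Type} [NormedAddCommGroup E] [NormedSpace ℝ E] [CompleteSpace E]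
    (f : ℝ → E) : ∫ x, f x ∂cltP = (2 : ℝ)⁻¹ • f 1 + (2 : ℝ)⁻¹ • f (-1) := by
  unfold cltP
  rw [integral_add_measure, integral_smul_measure, integral_smul_measure, integral_dirac,
    integral_dirac]
  · congr 2 <;> simp
  · exact (integrable_dirac (by simp)).smul_measure (by simp)
  · exact (integrable_dirac (by simp)).smul_measure (by simp)

/-- law of `SK K` as a probability measure -/
noncomputable def cltNuP (K : ℕ) : ProbabilityMeasure ℝ := ⟨cltNu K, cltNu_prob K⟩

/-- standard normal law as a probability measure -/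
noncomputable def cltGau : ProbabilityMeasure ℝ := ⟨gaussianReal 0 1, inferInstance⟩

theorem clt_char (K : ℕ) (t : ℝ) :
    charFun (cltNu K) t = (charFun cltP ((√K)⁻¹ * t)) ^ K := by
  rw [charFun_apply_real, charFun_apply_real, cltNu_int, cltP_int]
  set u : ℝ := (√K)⁻¹ * t with hu
  have h1 : ∀ y : Fin K → Bool, Complex.exp ((t : ℂ) * ((SK K y : ℝ) : ℂ) * Complex.I) =
      ∏ i, Complex.exp ((u : ℂ) * (((if y i then (1 : ℝ) else -1) : ℝ) : ℂ) * Complex.I) := by
    intro y
    rw [← Complex.exp_sum]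
    congr 1
    unfold SK
    rw [← Finset.sum_mul, ← Finset.mul_sum, hu]
    push_cast
    ring
  simp only [h1]
  rw [← Finset.smul_sum]
  have h2 : ∑ y : Fin K → Bool, ∏ i, Complex.exp ((u : ℂ) *
      (((if y i then (1 : ℝ) else -1) : ℝ) : ℂ) * Complex.I) =
      ∏ _i : Fin K, ∑ b : Bool, Complex.exp ((u : ℂ) *
      (((if b then (1 : ℝ) else -1) : ℝ) : ℂ) * Complex.I) := by
    rw [Finset.prod_univ_sum]
    rw [Fintype.piFinset_univ]
  rw [h2, Finset.prod_const, Finset.card_univ, Fintype.card_fin]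
  have h3 : ∑ b : Bool, Complex.exp ((u : ℂ) *
      (((if b then (1 : ℝ) else -1) : ℝ) : ℂ) * Complex.I) =
      Complex.exp ((u : ℂ) * ((1 : ℝ) : ℂ) * Complex.I) +
        Complex.exp ((u : ℂ) * ((-1 : ℝ) : ℂ) * Complex.I) := by
    rw [Fintype.sum_bool]
    simp
  rw [h3, ← smul_add, smul_pow, inv_pow]

theorem clt_bdd (g : ℝ → ℝ) (hg : Continuous g) (C : ℝ) (hC : ∀ s, |g s| ≤ C) :
    Tendsto (fun K : ℕ => EK K (fun y => g (SK K y))) atTop
      (𝓝 (∫ s, g s ∂(gaussianReal 0 1))) := by
  have hmain : Tendsto cltNuP atTop (𝓝 cltGau) := by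
    rw [ProbabilityMeasure.tendsto_iff_tendsto_charFun]
    intro t
    have h0 : cltP[(id : ℝ → ℝ)] = 0 := by
      rw [cltP_int]
      simp
    have h1 : cltP[(id : ℝ → ℝ) ^ 2] = 1 := by
      rw [cltP_int]
      simp
      norm_num
    have h2 := tendsto_charFun_inv_sqrt_mul_pow (P := cltP) (X := (id : ℝ → ℝ))
      aemeasurable_id h0 h1 t
    rw [Measure.map_id] at h2
    have h3 : charFun (gaussianReal 0 1) t = Complex.exp (-t ^ 2 / 2) := by
      rw [charFun_gaussianReal]
      congr 1
      push_cast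
      simp
      ring
    show Tendsto (fun K : ℕ => charFun (cltNu K) t) atTop (𝓝 (charFun (gaussianReal 0 1) t))
    rw [h3]
    simp only [clt_char]
    exact h2
  rw [ProbabilityMeasure.tendsto_iff_forall_integral_tendsto] at hmain
  have h := hmain (BoundedContinuousFunction.ofNormedAddCommGroup g hg C
    (fun s => by rw [Real.norm_eq_abs]; exact hC s))
  have e : ∀ K : ℕ, EK K (fun y => g (SK K y)) = ∫ x, g x ∂(cltNu K) := by
    intro K
    rw [cltNu_int, EK, ← Finset.smul_sum, smul_eq_mul, div_eq_inv_mul]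
  simp only [e]
  exact h

end HC
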