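import Pool.Agent.Helper540.HC.Defs

open MeasureTheory ProbabilityTheory Set Filter
open scoped ENNReal NNReal Topology

namespace HC



theorem moments (r : ℕ) : ∃ M : ℝ, ∀ K : ℕ, 1 ≤ K → EK K (fun y => (SK K y) ^ (2 * r)) ≤ M := by
  refine ⟨((2 * r).factorial : ℝ) * (2 * Real.exp (1 / 2)), fun K hK => ?_⟩
  have hKpos : (0 : ℝ) < K := by exact_mod_cast hK
  have key : ∀ c : ℝ, c ^ 2 = 1 → (∑ y : Fin K → Bool, Real.exp (c * SK K y)) ≤ 2 ^ K * Real.exp (1 / 2) := by
    intro c hc
    have h1 : ∀ y : Fin K → Bool, Real.exp (c * SK K y) =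
        ∏ i, Real.exp (c * ((√K)⁻¹ * (if y i then (1 : ℝ) else -1))) := by
      intro y
      rw [← Real.exp_sum, SK, Finset.mul_sum, Finset.mul_sum]
    have h2 : (∑ y : Fin K → Bool, Real.exp (c * SK K y)) =
        ∏ _i : Fin K, ∑ b : Bool, Real.exp (c * ((√K)⁻¹ * (if b then (1 : ℝ) else -1))) := by
      rw [Finset.prod_univ_sum, Fintype.piFinset_univ]
      exact Finset.sum_congr rfl fun y _ => h1 y
    have h3 : ∑ b : Bool, Real.exp (c * ((√K)⁻¹ * (if b then (1 : ℝ) else -1))) =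
        2 * Real.cosh (c * (√K)⁻¹) := by
      rw [Fintype.sum_bool, Real.cosh_eq]
      simp only [if_true, Bool.false_eq_true, if_false, mul_one, mul_neg]
      ring
    rw [h2, h3, Finset.prod_const, Finset.card_univ, Fintype.card_fin, mul_pow]
    refine mul_le_mul_of_nonneg_left ?_ (by positivity)
    have h4 : Real.cosh (c * (√K)⁻¹) ≤ Real.exp (1 / 2 / K) := by
      refine (Real.cosh_le_exp_half_sq _).trans (le_of_eq ?_)
      congr 1
      rw [mul_pow, hc, inv_pow, Real.sq_sqrt hKpos.le]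
      ring
    calc Real.cosh (c * (√K)⁻¹) ^ K ≤ Real.exp (1 / 2 / K) ^ K :=
          pow_le_pow_left₀ (Real.cosh_pos _).le h4 K
      _ = Real.exp (1 / 2) := by
          rw [← Real.exp_nat_mul]
          congr 1
          field_simp
  have hpt : ∀ s : ℝ, s ^ (2 * r) ≤ ((2 * r).factorial : ℝ) * (Real.exp (1 * s) + Real.exp (-1 * s)) := by
    intro s
    have h1 := Real.pow_div_factorial_le_exp |s| (abs_nonneg s) (2 * r)
    have h2 : |s| ^ (2 * r) = s ^ (2 * r) := by
      rw [pow_mul, pow_mul, sq_abs]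
    rw [h2, div_le_iff₀ (by positivity)] at h1
    have h3 : Real.exp |s| ≤ Real.exp (1 * s) + Real.exp (-1 * s) := by
      rcases abs_cases s with ⟨h, _⟩ | ⟨h, _⟩
      · rw [h, one_mul]
        have := Real.exp_pos (-1 * s)
        linarith
      · rw [h, neg_one_mul]
        have := Real.exp_pos (1 * s)
        linarith
    calc s ^ (2 * r) ≤ Real.exp |s| * ((2 * r).factorial : ℝ) := h1
      _ ≤ (Real.exp (1 * s) + Real.exp (-1 * s)) * ((2 * r).factorial : ℝ) :=
          mul_le_mul_of_nonneg_right h3 (by positivity)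
      _ = _ := mul_comm _ _
  unfold EK
  rw [div_le_iff₀ (by positivity)]
  calc ∑ y, SK K y ^ (2 * r) ≤
      ∑ y, ((2 * r).factorial : ℝ) * (Real.exp (1 * SK K y) + Real.exp (-1 * SK K y)) :=
        Finset.sum_le_sum fun y _ => hpt _
    _ = ((2 * r).factorial : ℝ) * ((∑ y, Real.exp (1 * SK K y)) + ∑ y, Real.exp (-1 * SK K y)) := by
        rw [← Finset.mul_sum, Finset.sum_add_distrib]
    _ ≤ ((2 * r).factorial : ℝ) * (2 ^ K * Real.exp (1 / 2) + 2 ^ K * Real.exp (1 / 2)) := by
        refine mul_le_mul_of_nonneg_left (add_le_add (key 1 (by norm_num)) (key (-1) (by norm_num))) (by positivity)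
    _ = ((2 * r).factorial : ℝ) * (2 * Real.exp (1 / 2)) * 2 ^ K := by ring

end HC
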