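import Pool.Agent.Helper540.HC.Defs
import Pool.Agent.Helper540.HC.P_moments
import Pool.Agent.Helper540.HC.P_clt_bdd

open MeasureTheory ProbabilityTheory Set Filter
open scoped ENNReal NNReal Topology

namespace HC



theorem clt_poly (g : ℝ → ℝ) (hg : Continuous g) (C : ℝ) (r : ℕ)
    (hC : ∀ s, |g s| ≤ C * (1 + s ^ (2 * r))) :
    Tendsto (fun K : ℕ => EK K (fun y => g (SK K y))) atTop
      (𝓝 (∫ s, g s ∂(gaussianReal 0 1))) := by
  -- set up
  set C' : ℝ := |C| with hC'
  have hC'0 : 0 ≤ C' := abs_nonneg C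
  have hev : ∀ s : ℝ, 0 ≤ s ^ (2 * r) := fun s => by rw [pow_mul]; positivity
  have hev2 : ∀ s : ℝ, 0 ≤ s ^ (2 * (r + 1)) := fun s => by rw [pow_mul]; positivity
  have hg1 : ∀ s, |g s| ≤ C' * (1 + s ^ (2 * r)) := fun s =>
    (hC s).trans (mul_le_mul_of_nonneg_right (le_abs_self C) (by have := hev s; linarith))
  obtain ⟨M1, hM1⟩ := moments 1
  obtain ⟨M2, hM2⟩ := moments (r + 1)
  let chi : ℝ → ℝ := fun u => max 0 (min 1 (2 - |u|))
  have hchi_c : Continuous chi := by
    show Continuous fun u : ℝ => max 0 (min 1 (2 - |u|))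
    fun_prop
  have hchi0 : ∀ u, 0 ≤ chi u := fun u => le_max_left _ _
  have hchi1 : ∀ u, chi u ≤ 1 := fun u => max_le zero_le_one (min_le_left _ _)
  have hchi_one : ∀ u, |u| ≤ 1 → chi u = 1 := by
    intro u hu
    show max 0 (min 1 (2 - |u|)) = 1
    rw [min_eq_left (by linarith), max_eq_right zero_le_one]
  have hchi_zero : ∀ u, 2 ≤ |u| → chi u = 0 := by
    intro u hu
    show max 0 (min 1 (2 - |u|)) = 0
    exact max_eq_left ((min_le_right _ _).trans (by linarith))
  let gR : ℝ → ℝ → ℝ := fun R s => g s * chi (s / R)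
  have hgRc : ∀ R, Continuous (gR R) := fun R => hg.mul (hchi_c.comp (continuous_id.div_const R))
  have hgRb : ∀ R, 1 ≤ R → ∀ s, |gR R s| ≤ C' * (1 + (2 * R) ^ (2 * r)) := by
    intro R hR s
    have hR0 : 0 < R := by linarith
    show |g s * chi (s / R)| ≤ _
    by_cases hs : 2 * R ≤ |s|
    · rw [hchi_zero (s / R) (by rw [abs_div, abs_of_pos hR0, le_div_iff₀ hR0]; exact hs), mul_zero,
        abs_zero]
      positivity
    · push Not at hs
      rw [abs_mul, abs_of_nonneg (hchi0 _)]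
      have h1 : s ^ (2 * r) ≤ (2 * R) ^ (2 * r) := by
        rw [pow_mul, pow_mul]
        apply pow_le_pow_left₀ (sq_nonneg s)
        rw [← sq_abs s]
        exact pow_le_pow_left₀ (abs_nonneg s) hs.le 2
      calc |g s| * chi (s / R) ≤ |g s| * 1 := mul_le_mul_of_nonneg_left (hchi1 _) (abs_nonneg _)
        _ = |g s| := mul_one _
        _ ≤ C' * (1 + s ^ (2 * r)) := hg1 s
        _ ≤ C' * (1 + (2 * R) ^ (2 * r)) := mul_le_mul_of_nonneg_left (by linarith) hC'0
  have hdiff : ∀ R, 1 ≤ R → ∀ s, |g s - gR R s| ≤ (C' / R ^ 2) * (s ^ (2 * 1) + s ^ (2 * (r + 1))) := by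
    intro R hR s
    have hR0 : 0 < R := by linarith
    show |g s - g s * chi (s / R)| ≤ _
    have hrhs : 0 ≤ s ^ (2 * 1) + s ^ (2 * (r + 1)) := by
      have := hev2 s
      have : 0 ≤ s ^ (2 * 1) := by rw [mul_one]; exact sq_nonneg s
      linarith
    by_cases hs : |s| ≤ R
    · rw [hchi_one (s / R) (by rw [abs_div, abs_of_pos hR0, div_le_one hR0]; exact hs), mul_one,
        sub_self, abs_zero]
      positivity
    · push Not at hs
      have h1 : g s - g s * chi (s / R) = g s * (1 - chi (s / R)) := by ring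
      rw [h1, abs_mul, abs_of_nonneg (by linarith [hchi1 (s / R)] : 0 ≤ 1 - chi (s / R))]
      have h2 : (1 : ℝ) ≤ s ^ 2 / R ^ 2 := by
        rw [le_div_iff₀ (by positivity), one_mul, ← sq_abs s]
        exact pow_le_pow_left₀ hR0.le hs.le 2
      have h3 : 0 ≤ C' * (1 + s ^ (2 * r)) := mul_nonneg hC'0 (by have := hev s; linarith)
      calc |g s| * (1 - chi (s / R)) ≤ |g s| * 1 :=
            mul_le_mul_of_nonneg_left (by linarith [hchi0 (s / R)]) (abs_nonneg _)
        _ = |g s| := mul_one _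
        _ ≤ C' * (1 + s ^ (2 * r)) := hg1 s
        _ = C' * (1 + s ^ (2 * r)) * 1 := (mul_one _).symm
        _ ≤ C' * (1 + s ^ (2 * r)) * (s ^ 2 / R ^ 2) := mul_le_mul_of_nonneg_left h2 h3
        _ = (C' / R ^ 2) * (s ^ (2 * 1) + s ^ (2 * (r + 1))) := by
          field_simp
          ring
  -- properties of EK
  have hEKmono : ∀ (K : ℕ) (a b : (Fin K → Bool) → ℝ), (∀ y, a y ≤ b y) → EK K a ≤ EK K b := by
    intro K a b hab
    unfold EK
    exact div_le_div_of_nonneg_right (Finset.sum_le_sum fun y _ => hab y) (by positivity)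
  have hEKsub : ∀ (K : ℕ) (a b : (Fin K → Bool) → ℝ), EK K a - EK K b = EK K (fun y => a y - b y) := by
    intro K a b
    unfold EK
    rw [Finset.sum_sub_distrib, sub_div]
  have hEKabs : ∀ (K : ℕ) (a : (Fin K → Bool) → ℝ), |EK K a| ≤ EK K (fun y => |a y|) := by
    intro K a
    unfold EK
    rw [abs_div, abs_of_pos (by positivity : (0:ℝ) < 2 ^ K)]
    exact div_le_div_of_nonneg_right (Finset.abs_sum_le_sum_abs _ _) (by positivity)
  have hEKlin : ∀ (K : ℕ) (c : ℝ) (a b : (Fin K → Bool) → ℝ),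
      EK K (fun y => c * (a y + b y)) = c * (EK K a + EK K b) := by
    intro K c a b
    unfold EK
    rw [← Finset.mul_sum, Finset.sum_add_distrib]
    ring
  have hM1' : 0 ≤ M1 := by
    refine le_trans ?_ (hM1 1 le_rfl)
    have := hEKmono 1 (fun _ => 0) (fun y => (SK 1 y) ^ (2 * 1)) (fun y => by
      show (0 : ℝ) ≤ (SK 1 y) ^ (2 * 1)
      rw [mul_one]; exact sq_nonneg _)
    refine le_trans ?_ this
    simp [EK]
  have hM2' : 0 ≤ M2 := by
    refine le_trans ?_ (hM2 1 le_rfl)
    have := hEKmono 1 (fun _ => 0) (fun y => (SK 1 y) ^ (2 * (r + 1))) (fun y => hev2 _)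
    refine le_trans ?_ this
    simp [EK]
  have hEKdiff : ∀ R, 1 ≤ R → ∀ K : ℕ, 1 ≤ K →
      |EK K (fun y => g (SK K y)) - EK K (fun y => gR R (SK K y))| ≤ (C' / R ^ 2) * (M1 + M2) := by
    intro R hR K hK
    rw [hEKsub]
    refine (hEKabs K _).trans ?_
    refine (hEKmono K _ _ (fun y => hdiff R hR (SK K y))).trans ?_
    rw [hEKlin]
    have := hM1 K hK
    have := hM2 K hK
    exact mul_le_mul_of_nonneg_left (by linarith) (by positivity)
  -- Gaussian side
  have hint : ∀ n : ℕ, Integrable (fun s : ℝ => s ^ n) (gaussianReal 0 1) := by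
    intro n
    have h1 : MemLp (id : ℝ → ℝ) (n : ℝ≥0) (gaussianReal 0 1) := memLp_id_gaussianReal (n : ℝ≥0)
    have h2 := MemLp.integrable_norm_pow' (p := n) (by simpa using h1)
    refine (integrable_norm_iff (by fun_prop)).mp ?_
    simpa using h2
  have hpoly : ∀ m : ℕ, Integrable (fun s : ℝ => s ^ m) (gaussianReal 0 1) := hint
  have hgint : Integrable g (gaussianReal 0 1) := by
    refine Integrable.mono' (g := fun s => C' * (1 + s ^ (2 * r)))
      (((integrable_const 1).add (hint (2 * r))).const_mul C') hg.aestronglyMeasurable ?_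
    exact Eventually.of_forall fun s => by rw [Real.norm_eq_abs]; exact hg1 s
  have hgRint : ∀ R, 1 ≤ R → Integrable (gR R) (gaussianReal 0 1) := by
    intro R hR
    refine Integrable.mono' (g := fun _ => C' * (1 + (2 * R) ^ (2 * r))) (integrable_const _)
      (hgRc R).aestronglyMeasurable ?_
    exact Eventually.of_forall fun s => by rw [Real.norm_eq_abs]; exact hgRb R hR s
  set G := ∫ s, (s ^ (2 * 1) + s ^ (2 * (r + 1))) ∂(gaussianReal 0 1) with hG
  have hG0 : 0 ≤ G := by
    apply integral_nonneg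
    intro s
    have h1 := hev2 s
    have h2 : 0 ≤ s ^ (2 * 1) := by rw [mul_one]; exact sq_nonneg s
    show 0 ≤ s ^ (2 * 1) + s ^ (2 * (r + 1))
    linarith
  have hGdiff : ∀ R, 1 ≤ R → |∫ s, gR R s ∂(gaussianReal 0 1) - ∫ s, g s ∂(gaussianReal 0 1)| ≤
      (C' / R ^ 2) * G := by
    intro R hR
    rw [abs_sub_comm, ← integral_sub hgint (hgRint R hR)]
    refine (abs_integral_le_integral_abs).trans ?_
    rw [hG, ← integral_const_mul]
    refine integral_mono ((hgint.sub (hgRint R hR)).abs)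
      (((hint (2 * 1)).add (hint (2 * (r + 1)))).const_mul _) ?_
    intro s
    exact hdiff R hR s
  -- conclusion
  rw [Metric.tendsto_atTop]
  intro ε hε
  set D := C' * (M1 + M2) + C' * G with hD
  have hD0 : 0 ≤ D := by positivity
  set R := 3 * D / ε + 1 with hR
  have hR1 : 1 ≤ R := by
    have : 0 ≤ 3 * D / ε := by positivity
    linarith
  have hR0 : 0 < R := by linarith
  have hDR : D / R ^ 2 < ε / 3 := by
    rw [div_lt_iff₀ (by positivity)]
    have h1 : R ≤ R ^ 2 := by nlinarith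
    have h2 : 3 * D / ε < R ^ 2 := by linarith
    rw [div_lt_iff₀ hε] at h2
    linarith
  have hA : (C' / R ^ 2) * (M1 + M2) ≤ D / R ^ 2 := by
    rw [div_mul_eq_mul_div]
    apply div_le_div_of_nonneg_right _ (by positivity)
    have : 0 ≤ C' * G := by positivity
    linarith
  have hB : (C' / R ^ 2) * G ≤ D / R ^ 2 := by
    rw [div_mul_eq_mul_div]
    apply div_le_div_of_nonneg_right _ (by positivity)
    have : 0 ≤ C' * (M1 + M2) := by positivity
    linarith
  obtain ⟨N, hN⟩ := Metric.tendsto_atTop.mp (clt_bdd (gR R) (hgRc R) _ (hgRb R hR1)) (ε / 3)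
    (by linarith)
  refine ⟨max N 1, fun K hK => ?_⟩
  have h1 := hEKdiff R hR1 K ((le_max_right _ _).trans hK)
  have h2 := hN K ((le_max_left _ _).trans hK)
  have h3 := hGdiff R hR1
  rw [Real.dist_eq] at h2 ⊢
  rw [abs_le] at h1 h3
  rw [abs_lt] at h2 ⊢
  constructor
  · linarith [h1.1, h2.1, h3.1]
  · linarith [h1.2, h2.2, h3.2]

end HC
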