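import Pool.Agent.Helper540.HC.Defs

open MeasureTheory ProbabilityTheory Set Filter
open scoped ENNReal NNReal Topology

namespace HC



theorem aux_pair {K : ℕ} (n : ℕ) (F : Finset (Fin K) → Fin K → ℝ) :
    ∑ A ∈ Finset.powersetCard (n + 1) (Finset.univ : Finset (Fin K)), ∑ i ∈ A, F (A.erase i) i =
      ∑ C ∈ Finset.powersetCard n (Finset.univ : Finset (Fin K)), ∑ i ∈ Cᶜ, F C i := by
  rw [Finset.sum_sigma', Finset.sum_sigma']
  refine Finset.sum_bij' (fun x _ => ⟨x.1.erase x.2, x.2⟩) (fun x _ => ⟨insert x.2 x.1, x.2⟩) ?_ ?_ ?_ ?_ ?_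
  · rintro ⟨A, i⟩ h
    simp only [Finset.mem_sigma, Finset.mem_powersetCard, Finset.subset_univ, true_and,
      Finset.mem_compl] at h ⊢
    refine ⟨?_, Finset.notMem_erase i A⟩
    rw [Finset.card_erase_of_mem h.2, h.1]; rfl
  · rintro ⟨C, i⟩ h
    simp only [Finset.mem_sigma, Finset.mem_powersetCard, Finset.subset_univ, true_and,
      Finset.mem_compl] at h ⊢
    refine ⟨?_, Finset.mem_insert_self i C⟩
    rw [Finset.card_insert_of_notMem h.2, h.1]
  · rintro ⟨A, i⟩ h
    simp only [Finset.mem_sigma] at h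
    simp [Finset.insert_erase h.2]
  · rintro ⟨C, i⟩ h
    simp only [Finset.mem_sigma, Finset.mem_compl] at h
    simp [Finset.erase_insert h.2]
  · rintro ⟨A, i⟩ h
    rfl

theorem walsh_erase {K : ℕ} (y : Fin K → Bool) (A : Finset (Fin K)) (i : Fin K) (hi : i ∈ A) :
    walsh A y = (if y i then (1 : ℝ) else -1) * walsh (A.erase i) y := by
  unfold walsh
  rw [Finset.mul_prod_erase A (fun i => if y i then (1 : ℝ) else -1) hi]

theorem eK_rec (K k : ℕ) (y : Fin K → Bool) :
    ((k : ℝ) + 2) * eK K (k + 2) y =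
      (∑ i, (if y i then (1 : ℝ) else -1)) * eK K (k + 1) y - ((K : ℝ) - k) * eK K k y := by
  have hsq : ∀ i, (if y i then (1 : ℝ) else -1) * (if y i then (1 : ℝ) else -1) = 1 := by
    intro i; split_ifs <;> norm_num
  have h1 : ((k : ℝ) + 2) * eK K (k + 2) y =
      ∑ A ∈ Finset.powersetCard (k + 1) (Finset.univ : Finset (Fin K)),
        ∑ i ∈ Aᶜ, (if y i then (1 : ℝ) else -1) * walsh A y := by
    rw [← aux_pair (k + 1) (fun A i => (if y i then (1 : ℝ) else -1) * walsh A y)]
    unfold eK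
    rw [Finset.mul_sum]
    refine Finset.sum_congr rfl fun A hA => ?_
    have hc : A.card = k + 2 := (Finset.mem_powersetCard.mp hA).2
    have : ∀ i ∈ A, (if y i then (1 : ℝ) else -1) * walsh (A.erase i) y = walsh A y :=
      fun i hi => (walsh_erase y A i hi).symm
    rw [Finset.sum_congr rfl this, Finset.sum_const, hc]
    simp only [nsmul_eq_mul]; push_cast; ring
  have h2 : ((K : ℝ) - k) * eK K k y =
      ∑ A ∈ Finset.powersetCard (k + 1) (Finset.univ : Finset (Fin K)),
        ∑ i ∈ A, (if y i then (1 : ℝ) else -1) * walsh A y := by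
    have h3 : ∀ A ∈ Finset.powersetCard (k + 1) (Finset.univ : Finset (Fin K)),
        ∑ i ∈ A, (if y i then (1 : ℝ) else -1) * walsh A y = ∑ i ∈ A, (fun C _ => walsh C y) (A.erase i) i := by
      intro A _
      refine Finset.sum_congr rfl fun i hi => ?_
      rw [walsh_erase y A i hi, ← mul_assoc, hsq, one_mul]
    rw [Finset.sum_congr rfl h3, aux_pair k (fun C _ => walsh C y)]
    unfold eK
    rw [Finset.mul_sum]
    refine Finset.sum_congr rfl fun C hC => ?_
    have hc : C.card = k := (Finset.mem_powersetCard.mp hC).2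
    rw [Finset.sum_const, Finset.card_compl, Fintype.card_fin, hc]
    have hk : k ≤ K := by
      rw [← hc]; simpa using Finset.card_le_univ C
    simp only [nsmul_eq_mul]; rw [Nat.cast_sub hk]
  have h4 : (∑ i, (if y i then (1 : ℝ) else -1)) * eK K (k + 1) y =
      ∑ A ∈ Finset.powersetCard (k + 1) (Finset.univ : Finset (Fin K)),
        (∑ i ∈ Aᶜ, (if y i then (1 : ℝ) else -1) * walsh A y +
          ∑ i ∈ A, (if y i then (1 : ℝ) else -1) * walsh A y) := by
    unfold eK
    rw [Finset.mul_sum]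
    refine Finset.sum_congr rfl fun A hA => ?_
    rw [Finset.sum_compl_add_sum, Finset.sum_mul]
  rw [h4, Finset.sum_add_distrib, ← h1, ← h2]; ring

end HC
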