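import Pool.Agent.Helper540.HC.Defs

open MeasureTheory ProbabilityTheory Set Filter
open scoped ENNReal NNReal Topology

namespace HC



/-- unimodular function -/
noncomputable def fin_low_h {Ω : Type} (θ : Ω → ℝ) (w : Ω) : ℂ :=
  ((√(1 - θ w ^ 2) : ℝ) : ℂ) + (θ w : ℂ) * Complex.I

theorem fin_low_h_re {Ω : Type} (θ : Ω → ℝ) (w : Ω) : (fin_low_h θ w).re = √(1 - θ w ^ 2) := by
  simp [fin_low_h]

theorem fin_low_h_im {Ω : Type} (θ : Ω → ℝ) (w : Ω) : (fin_low_h θ w).im = θ w := by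
  simp [fin_low_h]

theorem fin_low_sq {t : ℝ} (ht : |t| ≤ 1) : 0 ≤ 1 - t ^ 2 := by
  have := sq_abs t
  have h0 := abs_nonneg t
  nlinarith

theorem fin_low_h_norm {Ω : Type} (θ : Ω → ℝ) (hθ : ∀ ω, |θ ω| ≤ 1) (w : Ω) :
    ‖fin_low_h θ w‖ = 1 := by
  have h1 : ‖fin_low_h θ w‖ ^ 2 = 1 := by
    rw [← Complex.normSq_eq_norm_sq, Complex.normSq_apply, fin_low_h_re, fin_low_h_im,
      Real.mul_self_sqrt (fin_low_sq (hθ w))]
    ring
  have h2 := norm_nonneg (fin_low_h θ w)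
  nlinarith

theorem fin_low_fac {Ω : Type} [Fintype Ω] (G : Ω → ℝ) (h : Ω → ℂ) (n : ℕ) (j : Fin n) :
    ∑ x : Fin n → Ω, (G (x j) : ℂ) * ∏ i, h (x i) =
      (∑ w, (G w : ℂ) * h w) * (∑ w, h w) ^ (n - 1) := by
  classical
  have h1 : ∏ i : Fin n, ∑ w : Ω, (if i = j then (G w : ℂ) * h w else h w) =
      ∑ x : Fin n → Ω, ∏ i, (if i = j then (G (x i) : ℂ) * h (x i) else h (x i)) := by
    rw [Finset.prod_univ_sum, Fintype.piFinset_univ]
  have h2 : ∀ x : Fin n → Ω, ∏ i, (if i = j then (G (x i) : ℂ) * h (x i) else h (x i)) =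
      (G (x j) : ℂ) * ∏ i, h (x i) := by
    intro x
    have e : ∀ i, (if i = j then (G (x i) : ℂ) * h (x i) else h (x i)) =
        (if i = j then (G (x i) : ℂ) else 1) * h (x i) := by
      intro i
      split_ifs <;> simp
    rw [Finset.prod_congr rfl (fun i _ => e i), Finset.prod_mul_distrib, Finset.prod_ite_eq',
      if_pos (Finset.mem_univ j)]
  have h3 : ∏ i : Fin n, ∑ w : Ω, (if i = j then (G w : ℂ) * h w else h w) =
      (∑ w, (G w : ℂ) * h w) * (∑ w, h w) ^ (n - 1) := by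
    rw [← Finset.mul_prod_erase Finset.univ _ (Finset.mem_univ j)]
    congr 1
    · simp
    · have e : ∀ i ∈ Finset.univ.erase j, ∑ w : Ω, (if i = j then (G w : ℂ) * h w else h w) =
          ∑ w, h w := by
        intro i hi
        have hij : i ≠ j := Finset.ne_of_mem_erase hi
        simp [hij]
      rw [Finset.prod_congr rfl e, Finset.prod_const, Finset.card_erase_of_mem (Finset.mem_univ j),
        Finset.card_univ, Fintype.card_fin]
  rw [← h3, h1]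
  exact Finset.sum_congr rfl (fun x _ => (h2 x).symm)

theorem fin_low {Ω : Type} [Fintype Ω] [Nonempty Ω] (G θ : Ω → ℝ) (hθ : ∀ ω, |θ ω| ≤ 1)
    (n : ℕ) (hn : 1 ≤ n) :
    n * |(∑ ω, G ω * θ ω) / (Fintype.card Ω : ℝ)| *
        (1 - (∑ ω, θ ω ^ 2) / (Fintype.card Ω : ℝ)) ^ (n - 1) ≤
      (∑ x : Fin n → Ω, |∑ j, G (x j)|) / (Fintype.card Ω : ℝ) ^ n := by
  have hc : (0 : ℝ) < (Fintype.card Ω : ℝ) := by exact_mod_cast Fintype.card_pos
  set c : ℝ := (Fintype.card Ω : ℝ) with hcdef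
  set h := fin_low_h θ with hh
  have e1 : ∑ x : Fin n → Ω, ((∑ j, G (x j) : ℝ) : ℂ) * ∏ i, h (x i) =
      n * ((∑ w, (G w : ℂ) * h w) * (∑ w, h w) ^ (n - 1)) := by
    calc ∑ x : Fin n → Ω, ((∑ j, G (x j) : ℝ) : ℂ) * ∏ i, h (x i)
        = ∑ x : Fin n → Ω, ∑ j, (G (x j) : ℂ) * ∏ i, h (x i) := by
          apply Finset.sum_congr rfl
          intro x _
          rw [Complex.ofReal_sum, Finset.sum_mul]
      _ = ∑ j : Fin n, ∑ x : Fin n → Ω, (G (x j) : ℂ) * ∏ i, h (x i) := Finset.sum_comm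
      _ = ∑ j : Fin n, (∑ w, (G w : ℂ) * h w) * (∑ w, h w) ^ (n - 1) :=
          Finset.sum_congr rfl (fun j _ => fin_low_fac G h n j)
      _ = _ := by
          rw [Finset.sum_const, Finset.card_univ, Fintype.card_fin, nsmul_eq_mul]
  have e2 : ‖∑ x : Fin n → Ω, ((∑ j, G (x j) : ℝ) : ℂ) * ∏ i, h (x i)‖ ≤
      ∑ x : Fin n → Ω, |∑ j, G (x j)| := by
    refine (norm_sum_le _ _).trans (Finset.sum_le_sum (fun x _ => ?_))
    rw [norm_mul, norm_prod, Complex.norm_real, Real.norm_eq_abs,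
      Finset.prod_eq_one (fun i _ => fin_low_h_norm θ hθ (x i)), mul_one]
  have e3 : |∑ w, G w * θ w| ≤ ‖∑ w, (G w : ℂ) * h w‖ := by
    have : (∑ w, (G w : ℂ) * h w).im = ∑ w, G w * θ w := by
      rw [Complex.im_sum]
      apply Finset.sum_congr rfl
      intro w _
      rw [Complex.im_ofReal_mul, hh, fin_low_h_im]
    rw [← this]
    exact Complex.abs_im_le_norm _
  have e4 : c - ∑ w, θ w ^ 2 ≤ ‖∑ w, h w‖ := by
    have h1 : (∑ w, h w).re = ∑ w, √(1 - θ w ^ 2) := by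
      rw [Complex.re_sum]
      exact Finset.sum_congr rfl (fun w _ => fin_low_h_re θ w)
    have h2 : c - ∑ w, θ w ^ 2 = ∑ w, (1 - θ w ^ 2) := by
      rw [Finset.sum_sub_distrib, Finset.sum_const, Finset.card_univ, nsmul_eq_mul, mul_one]
    have h3 : ∑ w, (1 - θ w ^ 2) ≤ ∑ w, √(1 - θ w ^ 2) := by
      apply Finset.sum_le_sum
      intro w _
      apply Real.le_sqrt_of_sq_le
      have h4 := fin_low_sq (hθ w)
      have h5 := sq_nonneg (θ w)
      nlinarith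
    rw [h2]
    refine h3.trans ?_
    rw [← h1]
    exact Complex.re_le_norm _
  have e5 : 0 ≤ c - ∑ w, θ w ^ 2 := by
    have h2 : c - ∑ w, θ w ^ 2 = ∑ w, (1 - θ w ^ 2) := by
      rw [Finset.sum_sub_distrib, Finset.sum_const, Finset.card_univ, nsmul_eq_mul, mul_one]
    rw [h2]
    exact Finset.sum_nonneg (fun w _ => fin_low_sq (hθ w))
  have e6 : (n : ℝ) * (|∑ w, G w * θ w| * (c - ∑ w, θ w ^ 2) ^ (n - 1)) ≤
      ∑ x : Fin n → Ω, |∑ j, G (x j)| := by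
    refine le_trans ?_ e2
    rw [e1, norm_mul, norm_mul, norm_pow, Complex.norm_natCast]
    apply mul_le_mul_of_nonneg_left _ (Nat.cast_nonneg n)
    exact mul_le_mul e3 (pow_le_pow_left₀ e5 e4 _) (pow_nonneg e5 _) (norm_nonneg _)
  rw [le_div_iff₀ (pow_pos hc n)]
  refine le_trans (le_of_eq ?_) e6
  obtain ⟨m, rfl⟩ : ∃ m, n = m + 1 := ⟨n - 1, by omega⟩
  rw [Nat.add_sub_cancel, abs_div, abs_of_pos hc]
  have e7 : c - ∑ w, θ w ^ 2 = c * (1 - (∑ w, θ w ^ 2) / c) := by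
    field_simp
  rw [e7, mul_pow, pow_succ]
  field_simp
  try ring

end HC
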