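import Pool.Agent.Helper540.HC.Defs
import Pool.Agent.Helper540.HC.P_phi_props

open MeasureTheory ProbabilityTheory Set Filter
open scoped ENNReal NNReal Topology

namespace HC



theorem fin_phi_step {Ω : Type} [Fintype Ω] (p : ℝ) (hp1 : 0 < p) (hp2 : p ≤ 2)
    (X : Ω → ℝ) (τ : Ω ≃ Ω) (hτ : ∀ ω, X (τ ω) = - X ω) (S : ℝ) :
    ∑ w, phi p (X w + S) ≤ (Fintype.card Ω : ℝ) * phi p S + ∑ ω, phi p (X ω) := by
  obtain ⟨-, -, -, -, h5⟩ := phi_props p hp1 hp2
  have h1 : ∑ w, phi p (X w + S) = ∑ w, phi p (S + X w) := by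
    apply Finset.sum_congr rfl; intro w _; rw [add_comm]
  have h2 : ∑ w, phi p (X w + S) = ∑ w, phi p (S - X w) := by
    rw [← Equiv.sum_comp τ]
    apply Finset.sum_congr rfl; intro w _; rw [hτ]; congr 1; ring
  have h3 : ∑ w, (phi p (S + X w) + phi p (S - X w)) ≤ ∑ w, 2 * (phi p S + phi p (X w)) :=
    Finset.sum_le_sum (fun w _ => h5 S (X w))
  rw [Finset.sum_add_distrib, ← h1, ← h2, ← Finset.mul_sum, Finset.sum_add_distrib,
    Finset.sum_const, Finset.card_univ, nsmul_eq_mul] at h3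
  linarith

theorem fin_phi {Ω : Type} [Fintype Ω] [Nonempty Ω] (p : ℝ) (hp1 : 0 < p) (hp2 : p ≤ 2)
    (X : Ω → ℝ) (τ : Ω ≃ Ω) (hτ : ∀ ω, X (τ ω) = - X ω) (n : ℕ) :
    (∑ x : Fin n → Ω, phi p (∑ j, X (x j))) / (Fintype.card Ω : ℝ) ^ n ≤
      n * ((∑ ω, phi p (X ω)) / (Fintype.card Ω : ℝ)) := by
  have hc : (0 : ℝ) < (Fintype.card Ω : ℝ) := by exact_mod_cast Fintype.card_pos
  have key : (Fintype.card Ω : ℝ) * (∑ x : Fin n → Ω, phi p (∑ j, X (x j))) ≤
      n * (∑ ω, phi p (X ω)) * (Fintype.card Ω : ℝ) ^ n := by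
    induction n with
    | zero => simp [phi]
    | succ n ih =>
      have h1 : (∑ x : Fin (n + 1) → Ω, phi p (∑ j, X (x j))) =
          ∑ y : Fin n → Ω, ∑ w, phi p (X w + ∑ j, X (y j)) := by
        rw [← Equiv.sum_comp (Fin.consEquiv (fun _ : Fin (n + 1) => Ω)), Fintype.sum_prod_type,
          Finset.sum_comm]
        apply Finset.sum_congr rfl; intro y _
        apply Finset.sum_congr rfl; intro w _
        rw [Fin.sum_univ_succ]
        simp [Fin.consEquiv]
      have h2 : (∑ x : Fin (n + 1) → Ω, phi p (∑ j, X (x j))) ≤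
          ∑ y : Fin n → Ω, ((Fintype.card Ω : ℝ) * phi p (∑ j, X (y j)) + ∑ ω, phi p (X ω)) := by
        rw [h1]
        exact Finset.sum_le_sum (fun y _ => fin_phi_step p hp1 hp2 X τ hτ _)
      rw [Finset.sum_add_distrib, ← Finset.mul_sum, Finset.sum_const, Finset.card_univ,
        nsmul_eq_mul] at h2
      have h3 : ((Fintype.card (Fin n → Ω) : ℕ) : ℝ) = (Fintype.card Ω : ℝ) ^ n := by
        simp
      rw [h3] at h2
      have h4 := mul_le_mul_of_nonneg_left h2 hc.le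
      have h5 := mul_le_mul_of_nonneg_left ih hc.le
      push_cast
      calc _ ≤ _ := h4
        _ ≤ (Fintype.card Ω : ℝ) * (n * (∑ ω, phi p (X ω)) * (Fintype.card Ω : ℝ) ^ n) +
            (Fintype.card Ω : ℝ) * ((Fintype.card Ω : ℝ) ^ n * ∑ ω, phi p (X ω)) := by
          rw [mul_add]; linarith
        _ = _ := by ring
  rw [div_le_iff₀ (by positivity), mul_div_assoc', div_mul_eq_mul_div, le_div_iff₀ hc]
  linarith

end HC
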