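import Pool.Agent.Helper540.HC.Defs

open MeasureTheory ProbabilityTheory Set Filter
open scoped ENNReal NNReal Topology

namespace HC



theorem hK_neg (K k : ℕ) (y : Fin K → Bool) :
    hK K k (fun i => !(y i)) = (-1) ^ k * hK K k y := by
  have hw : ∀ A : Finset (Fin K), walsh A (fun i => !(y i)) = (-1) ^ A.card * walsh A y := by
    intro A
    unfold walsh
    rw [← Finset.prod_const, ← Finset.prod_mul_distrib]
    refine Finset.prod_congr rfl fun i _ => ?_
    cases h : y i <;> simp [h]
  have he : eK K k (fun i => !(y i)) = (-1) ^ k * eK K k y := by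
    unfold eK
    rw [Finset.mul_sum]
    refine Finset.sum_congr rfl fun A hA => ?_
    rw [hw A, (Finset.mem_powersetCard.1 hA).2]
  unfold hK
  rw [he]
  ring

end HC
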