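import Pool.Agent.Helper540.HC.Defs
import Pool.Agent.Helper540.HC.P_eK_rec

open MeasureTheory ProbabilityTheory Set Filter
open scoped ENNReal NNReal Topology

namespace HC



theorem hK_rec (K : ℕ) (hK1 : 1 ≤ K) (y : Fin K → Bool) :
    hK K 0 y = 1 ∧ hK K 1 y = SK K y ∧ ∀ k : ℕ,
      hK K (k + 2) y = SK K y * hK K (k + 1) y - (k + 1) * (1 - k / K) * hK K k y := by
  have hK0 : (0 : ℝ) < (K : ℝ) := by exact_mod_cast hK1
  have hs : ((√(K : ℝ))⁻¹) ^ 2 = 1 / (K : ℝ) := by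
    rw [inv_pow, Real.sq_sqrt hK0.le, one_div]
  refine ⟨?_, ?_, ?_⟩
  · simp [hK, eK, walsh]
  · simp [hK, eK, SK, walsh, Finset.powersetCard_one]
  · intro k
    have h := eK_rec K k y
    set S : ℝ := ∑ i, (if y i then (1 : ℝ) else -1) with hS
    set s : ℝ := (√(K : ℝ))⁻¹ with hsdef
    have f1 : ((k + 2).factorial : ℝ) = ((k : ℝ) + 2) * ((k + 1).factorial : ℝ) := by
      rw [Nat.factorial_succ]; push_cast; ring
    have f2 : ((k + 1).factorial : ℝ) = ((k : ℝ) + 1) * (k.factorial : ℝ) := by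
      rw [Nat.factorial_succ]; push_cast; ring
    have e1 : hK K (k + 2) y = ((k + 1).factorial : ℝ) * s ^ (k + 2) *
        (((k : ℝ) + 2) * eK K (k + 2) y) := by
      unfold hK
      rw [f1]; ring
    rw [e1, h]
    have e2 : SK K y = s * S := rfl
    rw [e2]
    unfold hK
    have e3 : (1 - (k : ℝ) / (K : ℝ)) = s ^ 2 * ((K : ℝ) - k) := by
      rw [hs]; field_simp
    rw [e3]
    rw [f2]
    ring

end HC
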