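import Pool.Agent.Helper540.HC.Defs
import Pool.Agent.Helper540.HC.P_He_props
import Pool.Agent.Helper540.HC.P_hK_rec
import Pool.Agent.Helper540.HC.P_moments

open MeasureTheory ProbabilityTheory Set Filter
open scoped ENNReal NNReal Topology

namespace HC



theorem j19723_mono (K : ℕ) {f g : (Fin K → Bool) → ℝ} (h : ∀ y, f y ≤ g y) :
    EK K f ≤ EK K g := by
  unfold EK
  exact div_le_div_of_nonneg_right (Finset.sum_le_sum fun y _ => h y) (by positivity)

theorem j19723_nonneg (K : ℕ) {f : (Fin K → Bool) → ℝ} (h : ∀ y, 0 ≤ f y) :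
    0 ≤ EK K f := by
  unfold EK
  exact div_nonneg (Finset.sum_nonneg fun y _ => h y) (by positivity)

theorem j19723_add (K : ℕ) (f g : (Fin K → Bool) → ℝ) :
    EK K (fun y => f y + g y) = EK K f + EK K g := by
  unfold EK
  rw [Finset.sum_add_distrib, add_div]

theorem j19723_mul (K : ℕ) (c : ℝ) (f : (Fin K → Bool) → ℝ) :
    EK K (fun y => c * f y) = c * EK K f := by
  unfold EK
  rw [← Finset.mul_sum, mul_div_assoc]

theorem j19723_const (K : ℕ) (c : ℝ) : EK K (fun _ => c) = c := by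
  unfold EK
  rw [Finset.sum_const, Finset.card_univ, Fintype.card_fun, Fintype.card_bool, Fintype.card_fin,
    nsmul_eq_mul]
  push_cast
  field_simp

theorem j19723_poly (P : Polynomial ℝ) :
    ∃ C : ℝ, ∀ K : ℕ, 1 ≤ K → EK K (fun y => |P.eval (SK K y)|) ≤ C := by
  induction P using Polynomial.induction_on' with
  | add p q hp hq =>
    obtain ⟨Cp, hp⟩ := hp
    obtain ⟨Cq, hq⟩ := hq
    refine ⟨Cp + Cq, fun K hK => ?_⟩
    have h1 : EK K (fun y => |(p + q).eval (SK K y)|) ≤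
        EK K (fun y => |p.eval (SK K y)| + |q.eval (SK K y)|) := by
      apply j19723_mono
      intro y
      rw [Polynomial.eval_add]
      exact abs_add_le _ _
    rw [j19723_add] at h1
    have := hp K hK
    have := hq K hK
    linarith
  | monomial n a =>
    obtain ⟨M, hM⟩ := moments n
    refine ⟨|a| * (1 + M), fun K hK => ?_⟩
    have h1 : EK K (fun y => |(Polynomial.monomial n a).eval (SK K y)|) ≤
        EK K (fun y => |a| * (1 + SK K y ^ (2 * n))) := by
      apply j19723_mono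
      intro y
      rw [Polynomial.eval_monomial, abs_mul]
      apply mul_le_mul_of_nonneg_left _ (abs_nonneg _)
      have h2 : SK K y ^ (2 * n) = |SK K y ^ n| ^ 2 := by
        rw [sq_abs, ← pow_mul, mul_comm]
      rw [h2]
      nlinarith [sq_nonneg (|SK K y ^ n| - 1), sq_nonneg (|SK K y ^ n|)]
    rw [j19723_mul, j19723_add, j19723_const] at h1
    refine h1.trans ?_
    apply mul_le_mul_of_nonneg_left _ (abs_nonneg _)
    linarith [hM K hK]

theorem j19723_step (k : ℕ)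
    (h0 : ∀ r : ℕ, Tendsto (fun K : ℕ => EK K (fun y =>
      (SK K y) ^ (2 * r) * (hK K k y - (He k).eval (SK K y)) ^ 2)) atTop (𝓝 0))
    (h1 : ∀ r : ℕ, Tendsto (fun K : ℕ => EK K (fun y =>
      (SK K y) ^ (2 * r) * (hK K (k + 1) y - (He (k + 1)).eval (SK K y)) ^ 2)) atTop (𝓝 0))
    (r : ℕ) : Tendsto (fun K : ℕ => EK K (fun y =>
      (SK K y) ^ (2 * r) * (hK K (k + 2) y - (He (k + 2)).eval (SK K y)) ^ 2)) atTop (𝓝 0) := by
  obtain ⟨C, hC⟩ := j19723_poly (Polynomial.X ^ (2 * r) * He k ^ 2)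
  have hC' : ∀ K : ℕ, 1 ≤ K →
      EK K (fun y => (SK K y) ^ (2 * r) * ((He k).eval (SK K y)) ^ 2) ≤ C := by
    intro K hK
    refine le_trans (j19723_mono K fun y => ?_) (hC K hK)
    refine le_trans ?_ (le_abs_self _)
    simp
  set A : ℝ := ((k + 1 : ℝ) * k) ^ 2 with hA
  have hA0 : 0 ≤ A := sq_nonneg _
  have hbound : ∀ K : ℕ, 1 ≤ K → EK K (fun y =>
      (SK K y) ^ (2 * r) * (hK K (k + 2) y - (He (k + 2)).eval (SK K y)) ^ 2) ≤
      3 * EK K (fun y => (SK K y) ^ (2 * (r + 1)) *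
        (hK K (k + 1) y - (He (k + 1)).eval (SK K y)) ^ 2) +
      (3 * (k + 1 : ℝ) ^ 2 + 6 * A) * EK K (fun y => (SK K y) ^ (2 * r) *
        (hK K k y - (He k).eval (SK K y)) ^ 2) + 6 * A * C * (1 / (K : ℝ)) := by
    intro K hK1
    have hKr : (1 : ℝ) ≤ K := by exact_mod_cast hK1
    have hKinv : 1 / (K : ℝ) ≤ 1 := by
      rw [div_le_one (by linarith)]
      exact hKr
    have hKinv0 : 0 ≤ 1 / (K : ℝ) := by positivity
    have hKsq : (1 / (K : ℝ)) ^ 2 ≤ 1 / (K : ℝ) := by nlinarith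
    have hKsq1 : (1 / (K : ℝ)) ^ 2 ≤ 1 := hKsq.trans hKinv
    have hp : ∀ y : Fin K → Bool,
        (SK K y) ^ (2 * r) * (hK K (k + 2) y - (He (k + 2)).eval (SK K y)) ^ 2 ≤
        3 * ((SK K y) ^ (2 * (r + 1)) *
          (hK K (k + 1) y - (He (k + 1)).eval (SK K y)) ^ 2) +
        ((3 * (k + 1 : ℝ) ^ 2 + 6 * A) * ((SK K y) ^ (2 * r) *
          (hK K k y - (He k).eval (SK K y)) ^ 2) +
        6 * A * (1 / (K : ℝ)) * ((SK K y) ^ (2 * r) * ((He k).eval (SK K y)) ^ 2)) := by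
      intro y
      have e1 := (hK_rec K hK1 y).2.2 k
      have e2 : (He (k + 2)).eval (SK K y) =
          SK K y * (He (k + 1)).eval (SK K y) - (k + 1) * (He k).eval (SK K y) := by
        rw [He_props.1.2.2 k]
        simp
      rw [e1, e2]
      generalize SK K y = s
      generalize hK K k y = h
      generalize hK K (k + 1) y = h'
      generalize Polynomial.eval s (He k) = e
      generalize Polynomial.eval s (He (k + 1)) = e'
      have hs : 0 ≤ s ^ (2 * r) := by
        rw [pow_mul]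
        positivity
      have e3 : s * h' - (k + 1) * (1 - k / K) * h - (s * e' - (k + 1) * e) =
          s * (h' - e') + (-((k + 1 : ℝ) * (h - e))) + ((k + 1 : ℝ) * k) * (1 / (K : ℝ)) * h := by
        field_simp
        ring
      rw [e3]
      have e4 : (s * (h' - e') + (-((k + 1 : ℝ) * (h - e))) +
          ((k + 1 : ℝ) * k) * (1 / (K : ℝ)) * h) ^ 2 ≤
          3 * (s * (h' - e')) ^ 2 + 3 * (-((k + 1 : ℝ) * (h - e))) ^ 2 +
          3 * (((k + 1 : ℝ) * k) * (1 / (K : ℝ)) * h) ^ 2 := by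
        nlinarith [sq_nonneg (s * (h' - e') - (-((k + 1 : ℝ) * (h - e)))),
          sq_nonneg ((-((k + 1 : ℝ) * (h - e))) - ((k + 1 : ℝ) * k) * (1 / (K : ℝ)) * h),
          sq_nonneg (s * (h' - e') - ((k + 1 : ℝ) * k) * (1 / (K : ℝ)) * h)]
      have e5 : (((k + 1 : ℝ) * k) * (1 / (K : ℝ)) * h) ^ 2 ≤
          2 * A * (h - e) ^ 2 + 2 * A * (1 / (K : ℝ)) * e ^ 2 := by
        have e6 : h ^ 2 ≤ 2 * (h - e) ^ 2 + 2 * e ^ 2 := by nlinarith [sq_nonneg (h - 2 * e)]
        have e7 : (((k + 1 : ℝ) * k) * (1 / (K : ℝ)) * h) ^ 2 =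
            A * (1 / (K : ℝ)) ^ 2 * h ^ 2 := by
          rw [hA]
          ring
        rw [e7]
        calc A * (1 / (K : ℝ)) ^ 2 * h ^ 2
            ≤ A * (1 / (K : ℝ)) ^ 2 * (2 * (h - e) ^ 2 + 2 * e ^ 2) :=
              mul_le_mul_of_nonneg_left e6 (by positivity)
          _ = 2 * A * (1 / (K : ℝ)) ^ 2 * (h - e) ^ 2 + 2 * A * (1 / (K : ℝ)) ^ 2 * e ^ 2 := by
              ring
          _ ≤ 2 * A * 1 * (h - e) ^ 2 + 2 * A * (1 / (K : ℝ)) * e ^ 2 := by
              gcongr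
          _ = _ := by ring
      calc s ^ (2 * r) * (s * (h' - e') + (-((k + 1 : ℝ) * (h - e))) +
          ((k + 1 : ℝ) * k) * (1 / (K : ℝ)) * h) ^ 2
          ≤ s ^ (2 * r) * (3 * (s * (h' - e')) ^ 2 + 3 * (-((k + 1 : ℝ) * (h - e))) ^ 2 +
            3 * (2 * A * (h - e) ^ 2 + 2 * A * (1 / (K : ℝ)) * e ^ 2)) :=
            mul_le_mul_of_nonneg_left (by linarith) hs
        _ = _ := by ring
    have h2 := j19723_mono K hp
    rw [j19723_add, j19723_add, j19723_mul, j19723_mul, j19723_mul] at h2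
    have h3 : 6 * A * (1 / (K : ℝ)) *
        EK K (fun y => (SK K y) ^ (2 * r) * ((He k).eval (SK K y)) ^ 2) ≤
        6 * A * (1 / (K : ℝ)) * C :=
      mul_le_mul_of_nonneg_left (hC' K hK1) (by positivity)
    linarith
  have hlim : Tendsto (fun K : ℕ => 3 * EK K (fun y => (SK K y) ^ (2 * (r + 1)) *
        (hK K (k + 1) y - (He (k + 1)).eval (SK K y)) ^ 2) +
      (3 * (k + 1 : ℝ) ^ 2 + 6 * A) * EK K (fun y => (SK K y) ^ (2 * r) *
        (hK K k y - (He k).eval (SK K y)) ^ 2) + 6 * A * C * (1 / (K : ℝ))) atTop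
      (𝓝 (3 * 0 + (3 * (k + 1 : ℝ) ^ 2 + 6 * A) * 0 + 6 * A * C * 0)) :=
    (((h1 (r + 1)).const_mul _).add ((h0 r).const_mul _)).add
      (tendsto_one_div_atTop_nhds_zero_nat.const_mul _)
  simp only [mul_zero, add_zero] at hlim
  refine tendsto_of_tendsto_of_tendsto_of_le_of_le' tendsto_const_nhds hlim ?_ ?_
  · refine Eventually.of_forall fun K => j19723_nonneg K fun y => ?_
    rw [pow_mul]
    positivity
  · filter_upwards [eventually_ge_atTop 1] with K hK1
    exact hbound K hK1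

theorem j19723_all (k : ℕ) : (∀ r : ℕ, Tendsto (fun K : ℕ => EK K (fun y =>
      (SK K y) ^ (2 * r) * (hK K k y - (He k).eval (SK K y)) ^ 2)) atTop (𝓝 0)) ∧
    (∀ r : ℕ, Tendsto (fun K : ℕ => EK K (fun y =>
      (SK K y) ^ (2 * r) * (hK K (k + 1) y - (He (k + 1)).eval (SK K y)) ^ 2)) atTop (𝓝 0)) := by
  induction k with
  | zero =>
    constructor
    · intro r
      refine tendsto_const_nhds.congr' ?_
      filter_upwards [eventually_ge_atTop 1] with K hK1
      have h : ∀ y : Fin K → Bool, (SK K y) ^ (2 * r) *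
          (hK K 0 y - (He 0).eval (SK K y)) ^ 2 = 0 := by
        intro y
        rw [(hK_rec K hK1 y).1, He_props.1.1]
        simp
      simp only [h]
      exact (j19723_const K 0).symm
    · intro r
      refine tendsto_const_nhds.congr' ?_
      filter_upwards [eventually_ge_atTop 1] with K hK1
      have h : ∀ y : Fin K → Bool, (SK K y) ^ (2 * r) *
          (hK K (0 + 1) y - (He (0 + 1)).eval (SK K y)) ^ 2 = 0 := by
        intro y
        rw [zero_add, (hK_rec K hK1 y).2.1, He_props.1.2.1]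
        simp
      simp only [h]
      exact (j19723_const K 0).symm
  | succ k ih =>
    exact ⟨ih.2, j19723_step k ih.1 ih.2⟩

theorem hK_tendsto (k r : ℕ) : Tendsto (fun K : ℕ => EK K (fun y =>
    (SK K y) ^ (2 * r) * (hK K k y - (He k).eval (SK K y)) ^ 2)) atTop (𝓝 0) :=
  (j19723_all k).1 r

end HC
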