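import Pool.Agent.Helper540.HC.Defs

open MeasureTheory ProbabilityTheory Set Filter
open scoped ENNReal NNReal Topology

namespace HC


theorem He_coeff (k j : ℕ) : (He k).coeff j = (((Polynomial.hermite k).coeff j : ℤ) : ℝ) := by
  unfold He
  rw [Polynomial.coeff_map]
  rfl

theorem odd_coeff (Q : Polynomial ℝ) (hodd : ∀ s, Q.eval (-s) = - Q.eval s) (k : ℕ)
    (hk : Even k) : Q.coeff k = 0 := by
  have h1 : Q.comp (Polynomial.C (-1) * Polynomial.X) = -Q := by
    apply Polynomial.funext
    intro r
    rw [Polynomial.eval_comp, Polynomial.eval_neg, ← hodd r]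
    simp
  have h2 := congrArg (fun p => Polynomial.coeff p k) h1
  simp only [Polynomial.comp_C_mul_X_coeff, Polynomial.coeff_neg] at h2
  rw [hk.neg_one_pow] at h2
  linarith

theorem hermite_expand_aux (D : ℕ) : ∀ Q : Polynomial ℝ, (∀ k, Even k → Q.coeff k = 0) →
    Q.natDegree ≤ D → ∃ β : ℕ → ℝ, (∀ k, Even k → β k = 0) ∧ (∀ k, D < k → β k = 0) ∧
      Q = ∑ k ∈ Finset.range (D + 1), Polynomial.C (β k) * He k := by
  induction D with
  | zero =>
    intro Q h0 hd
    refine ⟨fun _ => 0, fun _ _ => rfl, fun _ _ => rfl, ?_⟩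
    have h1 : Q = Polynomial.C (Q.coeff 0) := Polynomial.eq_C_of_natDegree_le_zero hd
    rw [h0 0 (by decide)] at h1
    rw [h1]
    simp
  | succ D ih =>
    intro Q h0 hd
    have hs : ∀ j, (Q - Polynomial.C (Q.coeff (D + 1)) * He (D + 1)).coeff j =
        Q.coeff j - Q.coeff (D + 1) * (((Polynomial.hermite (D + 1)).coeff j : ℤ) : ℝ) := by
      intro j
      rw [Polynomial.coeff_sub, Polynomial.coeff_C_mul, He_coeff]
    obtain ⟨β, hb1, hb2, hb3⟩ := ih (Q - Polynomial.C (Q.coeff (D + 1)) * He (D + 1)) (by
        intro k hk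
        rw [hs k, h0 k hk]
        by_cases hD : Even (D + 1)
        · rw [h0 (D + 1) hD]
          ring
        · have hodd : Odd (D + 1 + k) := by
            rw [Nat.not_even_iff_odd] at hD
            exact hD.add_even hk
          rw [Polynomial.coeff_hermite_of_odd_add hodd]
          simp) (by
        rw [Polynomial.natDegree_le_iff_coeff_eq_zero]
        intro j hj
        rw [hs j]
        rcases Nat.lt_or_ge (D + 1) j with h | h
        · rw [Polynomial.coeff_hermite_of_lt h, Polynomial.coeff_eq_zero_of_natDegree_lt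
            (lt_of_le_of_lt hd h)]
          simp
        · have hj2 : j = D + 1 := by omega
          subst hj2
          rw [Polynomial.coeff_hermite_self]
          simp)
    refine ⟨fun k => if k = D + 1 then Q.coeff (D + 1) else β k, ?_, ?_, ?_⟩
    · intro k hk
      by_cases h : k = D + 1
      · subst h
        simp only [if_true]
        exact h0 _ hk
      · simp only [if_neg h]
        exact hb1 k hk
    · intro k hk
      have h : k ≠ D + 1 := by omega
      simp only [if_neg h]
      exact hb2 k (by omega)
    · rw [Finset.sum_range_succ]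
      simp only [if_true]
      have e : ∑ k ∈ Finset.range (D + 1), Polynomial.C (if k = D + 1 then Q.coeff (D + 1) else β k) * He k =
          ∑ k ∈ Finset.range (D + 1), Polynomial.C (β k) * He k := by
        apply Finset.sum_congr rfl
        intro k hk
        have h : k ≠ D + 1 := by
          have := Finset.mem_range.1 hk
          omega
        rw [if_neg h]
      rw [e, ← hb3]
      ring

theorem hermite_expand (Q : Polynomial ℝ) (hodd : ∀ s, Q.eval (-s) = - Q.eval s) :
    ∃ β : ℕ → ℝ, (∀ k, Even k → β k = 0) ∧ (∀ k, Q.natDegree < k → β k = 0) ∧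
      Q = ∑ k ∈ Finset.range (Q.natDegree + 1), Polynomial.C (β k) * He k :=
  hermite_expand_aux Q.natDegree Q (odd_coeff Q hodd) le_rfl

end HC
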