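import Pool.Agent.Helper540.HC.Defs
import Pool.Agent.Helper540.HC.P_hK_tendsto

open MeasureTheory ProbabilityTheory Set Filter
open scoped ENNReal NNReal Topology

namespace HC



theorem FK_tendsto (D : ℕ) (β : ℕ → ℝ) : Tendsto (fun K : ℕ => EK K (fun y =>
    ((∑ k ∈ Finset.range D, β k * hK K k y) -
      (∑ k ∈ Finset.range D, Polynomial.C (β k) * He k).eval (SK K y)) ^ 2)) atTop (𝓝 0) := by
  have h0 : ∀ k, Tendsto (fun K : ℕ => EK K (fun y =>
      (hK K k y - (He k).eval (SK K y)) ^ 2)) atTop (𝓝 0) := fun k => by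
    have h := hK_tendsto k 0
    simpa using h
  have hub : Tendsto (fun K : ℕ => (D : ℝ) * ∑ k ∈ Finset.range D, β k ^ 2 * EK K (fun y =>
      (hK K k y - (He k).eval (SK K y)) ^ 2)) atTop (𝓝 0) := by
    have h1 := (tendsto_finsetSum (Finset.range D) fun k _ => (h0 k).const_mul (β k ^ 2)).const_mul
      (D : ℝ)
    simpa using h1
  refine squeeze_zero (fun K => ?_) (fun K => ?_) hub
  · unfold EK
    exact div_nonneg (Finset.sum_nonneg fun y _ => sq_nonneg _) (by positivity)
  · have hpt : ∀ y : Fin K → Bool, ((∑ k ∈ Finset.range D, β k * hK K k y) -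
        (∑ k ∈ Finset.range D, Polynomial.C (β k) * He k).eval (SK K y)) ^ 2 ≤
        (D : ℝ) * ∑ k ∈ Finset.range D, β k ^ 2 * (hK K k y - (He k).eval (SK K y)) ^ 2 := by
      intro y
      have e1 : (∑ k ∈ Finset.range D, β k * hK K k y) -
          (∑ k ∈ Finset.range D, Polynomial.C (β k) * He k).eval (SK K y) =
          ∑ k ∈ Finset.range D, β k * (hK K k y - (He k).eval (SK K y)) := by
        rw [Polynomial.eval_finsetSum, ← Finset.sum_sub_distrib]
        refine Finset.sum_congr rfl fun k _ => ?_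
        simp only [Polynomial.eval_mul, Polynomial.eval_C]
        ring
      rw [e1]
      have h2 := sq_sum_le_card_mul_sum_sq (s := Finset.range D)
        (f := fun k => β k * (hK K k y - (He k).eval (SK K y)))
      rw [Finset.card_range] at h2
      refine h2.trans (le_of_eq ?_)
      congr 1
      refine Finset.sum_congr rfl fun k _ => ?_
      ring
    unfold EK
    have h3 : ∑ y : Fin K → Bool, ((∑ k ∈ Finset.range D, β k * hK K k y) -
        (∑ k ∈ Finset.range D, Polynomial.C (β k) * He k).eval (SK K y)) ^ 2 ≤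
        ∑ y : Fin K → Bool, (D : ℝ) * ∑ k ∈ Finset.range D,
          β k ^ 2 * (hK K k y - (He k).eval (SK K y)) ^ 2 := Finset.sum_le_sum fun y _ => hpt y
    refine (div_le_div_of_nonneg_right h3 (by positivity)).trans (le_of_eq ?_)
    rw [← Finset.mul_sum, Finset.sum_comm, mul_div_assoc, Finset.sum_div]
    congr 1
    refine Finset.sum_congr rfl fun k _ => ?_
    rw [← Finset.mul_sum, mul_div_assoc]

end HC
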