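import Pool.Agent.Helper540.HC.Defs

open MeasureTheory ProbabilityTheory Set Filter
open scoped ENNReal NNReal Topology

namespace HC



theorem phi_lip_aux (r a b : ℝ) (hr : 0 < r) (hr1 : r ≤ 1) (ha : 1 ≤ a) (hab : a ≤ b) :
    0 ≤ b ^ r - a ^ r ∧ b ^ r - a ^ r ≤ b - a := by
  have ha0 : 0 < a := by linarith
  constructor
  · have := Real.rpow_le_rpow ha0.le hab hr.le
    linarith
  · have hc : 0 ≤ (b - a) / a := div_nonneg (by linarith) ha0.le
    have h1 : (1 + (b - a) / a) ^ r ≤ 1 + r * ((b - a) / a) :=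
      rpow_one_add_le_one_add_mul_self (by linarith) hr.le hr1
    have h2 : 1 + (b - a) / a = b / a := by field_simp; ring
    rw [h2] at h1
    have h3 : b ^ r = a ^ r * (b / a) ^ r := by
      rw [← Real.mul_rpow ha0.le (div_nonneg (by linarith) ha0.le)]
      congr 1
      field_simp
    have h4 : a ^ r ≤ a := by
      have := Real.rpow_le_rpow_of_exponent_le ha hr1
      simpa using this
    have h5 : 0 < a ^ r := Real.rpow_pos_of_pos ha0 r
    have h6 : a ^ r * (b / a) ^ r ≤ a ^ r * (1 + r * ((b - a) / a)) :=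
      mul_le_mul_of_nonneg_left h1 h5.le
    have h7 : a ^ r * (r * ((b - a) / a)) ≤ b - a := by
      have h8 : r * ((b - a) / a) ≤ (b - a) / a := by nlinarith
      have h9 : a ^ r * (r * ((b - a) / a)) ≤ a * ((b - a) / a) := by
        apply mul_le_mul h4 h8 (by positivity) ha0.le
      have h10 : a * ((b - a) / a) = b - a := by field_simp
      linarith
    rw [h3]
    nlinarith

theorem phi_lip (p : ℝ) (hp1 : 0 < p) (hp2 : p ≤ 2) (s t : ℝ) :
    |phi p s - phi p t| ≤ 2 * (|s| + |t|) * |s - t| := by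
  have hr : 0 < p / 2 := by linarith
  have hr1 : p / 2 ≤ 1 := by linarith
  have key : |phi p s - phi p t| ≤ |s ^ 2 - t ^ 2| := by
    unfold phi
    rcases le_total (s ^ 2) (t ^ 2) with h | h
    · obtain ⟨h1, h2⟩ := phi_lip_aux (p / 2) (1 + s ^ 2) (1 + t ^ 2) hr hr1 (by nlinarith [sq_nonneg s])
        (by linarith)
      rw [abs_le]
      have h3 : |s ^ 2 - t ^ 2| = t ^ 2 - s ^ 2 := by
        rw [abs_of_nonpos (by linarith)]; ring
      rw [h3]
      constructor <;> linarith
    · obtain ⟨h1, h2⟩ := phi_lip_aux (p / 2) (1 + t ^ 2) (1 + s ^ 2) hr hr1 (by nlinarith [sq_nonneg t])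
        (by linarith)
      rw [abs_le]
      have h3 : |s ^ 2 - t ^ 2| = s ^ 2 - t ^ 2 := abs_of_nonneg (by linarith)
      rw [h3]
      constructor <;> linarith
  have h4 : |s ^ 2 - t ^ 2| ≤ (|s| + |t|) * |s - t| := by
    have h5 : s ^ 2 - t ^ 2 = (s + t) * (s - t) := by ring
    rw [h5, abs_mul]
    exact mul_le_mul_of_nonneg_right (abs_add_le s t) (abs_nonneg _)
  have h6 : 0 ≤ (|s| + |t|) * |s - t| := by positivity
  linarith

end HC
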