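import Pool.Agent.Helper540.HC.Defs
import Pool.Agent.Helper540.HC.P_phi_props
import Pool.Agent.Helper540.HC.P_phi_lip
import Pool.Agent.Helper540.HC.P_moments
import Pool.Agent.Helper540.HC.P_clt_poly
import Pool.Agent.Helper540.HC.P_FK_tendsto

open MeasureTheory ProbabilityTheory Set Filter
open scoped ENNReal NNReal Topology

namespace HC



theorem h400_polybd (Q : Polynomial ℝ) : ∃ (C : ℝ) (r : ℕ), ∀ s : ℝ,
    |Q.eval s| ≤ C * (1 + s ^ (2 * r)) := by
  refine ⟨∑ i ∈ Finset.range (Q.natDegree + 1), |Q.coeff i|, Q.natDegree, ?_⟩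
  intro s
  rw [Polynomial.eval_eq_sum_range, Finset.sum_mul]
  refine (Finset.abs_sum_le_sum_abs _ _).trans (Finset.sum_le_sum ?_)
  intro i hi
  rw [Finset.mem_range] at hi
  rw [abs_mul, abs_pow]
  apply mul_le_mul_of_nonneg_left _ (abs_nonneg _)
  have hs : s ^ (2 * Q.natDegree) = |s| ^ (2 * Q.natDegree) := by
    rw [pow_mul, pow_mul, sq_abs]
  rw [hs]
  rcases le_total |s| 1 with h | h
  · have h1 : |s| ^ i ≤ 1 := pow_le_one₀ (abs_nonneg _) h
    have h2 : 0 ≤ |s| ^ (2 * Q.natDegree) := by positivity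
    linarith
  · have h1 : |s| ^ i ≤ |s| ^ (2 * Q.natDegree) := pow_le_pow_right₀ h (by omega)
    linarith

theorem h400_EK_mono (K : ℕ) (f g : (Fin K → Bool) → ℝ) (h : ∀ y, f y ≤ g y) :
    EK K f ≤ EK K g := by
  unfold EK
  apply div_le_div_of_nonneg_right _ (by positivity)
  exact Finset.sum_le_sum (fun y _ => h y)

theorem h400_EK_sub (K : ℕ) (f g : (Fin K → Bool) → ℝ) :
    EK K f - EK K g = EK K (fun y => f y - g y) := by
  unfold EK
  rw [← sub_div, Finset.sum_sub_distrib]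

theorem h400_EK_abs (K : ℕ) (f : (Fin K → Bool) → ℝ) :
    |EK K f| ≤ EK K (fun y => |f y|) := by
  unfold EK
  rw [abs_div, abs_of_pos (by positivity : (0:ℝ) < 2 ^ K)]
  apply div_le_div_of_nonneg_right _ (by positivity)
  exact Finset.abs_sum_le_sum_abs _ _

theorem h400_EK_cs (K : ℕ) (f g : (Fin K → Bool) → ℝ) :
    EK K (fun y => f y * g y) ≤ √(EK K (fun y => f y ^ 2)) * √(EK K (fun y => g y ^ 2)) := by
  unfold EK
  have h := Real.sum_mul_le_sqrt_mul_sqrt (Finset.univ : Finset (Fin K → Bool)) f g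
  rw [Real.sqrt_div (Finset.sum_nonneg (fun y _ => sq_nonneg _)),
    Real.sqrt_div (Finset.sum_nonneg (fun y _ => sq_nonneg _)), div_mul_div_comm,
    Real.mul_self_sqrt (by positivity)]
  exact div_le_div_of_nonneg_right h (by positivity)

theorem h400_EK_lin (K : ℕ) (a b : ℝ) (f g : (Fin K → Bool) → ℝ) :
    EK K (fun y => a * f y + b * g y) = a * EK K f + b * EK K g := by
  unfold EK
  rw [Finset.sum_add_distrib, ← Finset.mul_sum, ← Finset.mul_sum]
  ring

theorem lim_phi (p : ℝ) (hp1 : 0 < p) (hp2 : p ≤ 2) (D : ℕ) (β : ℕ → ℝ) :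
    Tendsto (fun K : ℕ => EK K (fun y => phi p (∑ k ∈ Finset.range D, β k * hK K k y))) atTop
      (𝓝 (∫ s, phi p ((∑ k ∈ Finset.range D, Polynomial.C (β k) * He k).eval s)
        ∂(gaussianReal 0 1))) := by
  obtain ⟨P, hP⟩ : ∃ P : Polynomial ℝ, P = ∑ k ∈ Finset.range D, Polynomial.C (β k) * He k :=
    ⟨_, rfl⟩
  obtain ⟨F, hF⟩ : ∃ F : (K : ℕ) → (Fin K → Bool) → ℝ, ∀ K y, F K y =
      ∑ k ∈ Finset.range D, β k * hK K k y := ⟨_, fun _ _ => rfl⟩
  have hFK := FK_tendsto D β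
  simp only [← hP, ← hF] at hFK ⊢
  obtain ⟨hp0, hpsq, -, -, -⟩ := phi_props p hp1 hp2
  obtain ⟨C, r, hC⟩ := h400_polybd (P ^ 2)
  have hPc : Continuous (fun s : ℝ => P.eval s) := P.continuous
  have hphic : Continuous (fun t : ℝ => phi p t) := by
    unfold phi
    apply Continuous.sub _ continuous_const
    apply Continuous.rpow_const (by fun_prop)
    intro t
    right
    positivity
  have h1 : Tendsto (fun K : ℕ => EK K (fun y => phi p (P.eval (SK K y)))) atTop
      (𝓝 (∫ s, phi p (P.eval s) ∂(gaussianReal 0 1))) := by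
    apply clt_poly (fun s => phi p (P.eval s)) (hphic.comp hPc) C r
    intro s
    rw [abs_of_nonneg (hp0 _)]
    refine (hpsq _).trans ?_
    have h2 := hC s
    rw [Polynomial.eval_pow] at h2
    exact (le_abs_self _).trans h2
  have h2 : Tendsto (fun K : ℕ => EK K (fun y => (P.eval (SK K y)) ^ 2)) atTop
      (𝓝 (∫ s, (P.eval s) ^ 2 ∂(gaussianReal 0 1))) := by
    apply clt_poly (fun s => (P.eval s) ^ 2) (hPc.pow 2) C r
    intro s
    have h2 := hC s
    rw [Polynomial.eval_pow] at h2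
    exact h2
  have hbound : ∀ K : ℕ, |EK K (fun y => phi p (F K y)) - EK K (fun y => phi p (P.eval (SK K y)))|
      ≤ 2 * EK K (fun y => (F K y - P.eval (SK K y)) ^ 2) +
        4 * (√(EK K (fun y => (P.eval (SK K y)) ^ 2)) *
          √(EK K (fun y => (F K y - P.eval (SK K y)) ^ 2))) := by
    intro K
    rw [h400_EK_sub]
    refine (h400_EK_abs K _).trans ?_
    have h3 : ∀ y, |phi p (F K y) - phi p (P.eval (SK K y))| ≤
        2 * (F K y - P.eval (SK K y)) ^ 2 +
          4 * (|P.eval (SK K y)| * |F K y - P.eval (SK K y)|) := by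
      intro y
      refine (phi_lip p hp1 hp2 _ _).trans ?_
      obtain ⟨a, ha⟩ : ∃ a, a = F K y := ⟨_, rfl⟩
      obtain ⟨b, hb⟩ : ∃ b, b = P.eval (SK K y) := ⟨_, rfl⟩
      rw [← ha, ← hb]
      have h4 : |a| ≤ |a - b| + |b| := by
        have := abs_add_le (a - b) b
        rwa [sub_add_cancel] at this
      have h5 : (a - b) ^ 2 = |a - b| * |a - b| := by rw [← sq, sq_abs]
      rw [h5]
      have h6 := abs_nonneg (a - b)
      nlinarith
    refine (h400_EK_mono K _ _ h3).trans ?_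
    rw [h400_EK_lin]
    have h7 := h400_EK_cs K (fun y => |P.eval (SK K y)|) (fun y => |F K y - P.eval (SK K y)|)
    simp only [sq_abs] at h7
    linarith
  have hlim : Tendsto (fun K : ℕ => 2 * EK K (fun y => (F K y - P.eval (SK K y)) ^ 2) +
        4 * (√(EK K (fun y => (P.eval (SK K y)) ^ 2)) *
          √(EK K (fun y => (F K y - P.eval (SK K y)) ^ 2)))) atTop (𝓝 0) := by
    have h8 := (hFK.const_mul 2).add (((h2.sqrt).mul (hFK.sqrt)).const_mul 4)
    have h9 : 2 * (0:ℝ) + 4 * (√(∫ s, (P.eval s) ^ 2 ∂(gaussianReal 0 1)) * √0) = 0 := by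
      rw [Real.sqrt_zero]
      ring
    rw [h9] at h8
    exact h8
  have hdiff : Tendsto (fun K : ℕ => EK K (fun y => phi p (F K y)) -
      EK K (fun y => phi p (P.eval (SK K y)))) atTop (𝓝 0) :=
    squeeze_zero_norm hbound hlim
  have hfin := hdiff.add h1
  simp only [sub_add_cancel, zero_add] at hfin
  exact hfin

end HC
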