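import Pool.Agent.Helper540.HC.Defs
import Pool.Agent.Helper540.HC.P_He_props
import Pool.Agent.Helper540.HC.P_clt_poly
import Pool.Agent.Helper540.HC.P_FK_tendsto

open MeasureTheory ProbabilityTheory Set Filter
open scoped ENNReal NNReal Topology

namespace HC



theorem ltaux_poly (Q : Polynomial ℝ) : ∃ (C : ℝ) (r : ℕ), ∀ s : ℝ,
    |Q.eval s| ≤ C * (1 + s ^ (2 * r)) := by
  refine ⟨∑ i ∈ Finset.range (Q.natDegree + 1), |Q.coeff i|, Q.natDegree, ?_⟩
  intro s
  rw [Polynomial.eval_eq_sum_range, Finset.sum_mul]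
  refine (Finset.abs_sum_le_sum_abs _ _).trans (Finset.sum_le_sum ?_)
  intro i hi
  rw [abs_mul]
  refine mul_le_mul_of_nonneg_left ?_ (abs_nonneg _)
  have hi' : i ≤ Q.natDegree := by
    have := Finset.mem_range.1 hi
    omega
  have h0 : s ^ (2 * Q.natDegree) = |s| ^ (2 * Q.natDegree) := by
    rw [pow_mul, pow_mul, sq_abs]
  rw [abs_pow, h0]
  by_cases hs : |s| ≤ 1
  · have h1 : |s| ^ i ≤ 1 := pow_le_one₀ (abs_nonneg _) hs
    have h2 : 0 ≤ |s| ^ (2 * Q.natDegree) := by positivity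
    linarith
  · push Not at hs
    have h1 : |s| ^ i ≤ |s| ^ (2 * Q.natDegree) := pow_le_pow_right₀ hs.le (by omega)
    linarith

theorem ltaux_cs (K : ℕ) (a : (Fin K → Bool) → ℝ) : EK K a ^ 2 ≤ EK K (fun y => a y ^ 2) := by
  unfold EK
  have h1 := sq_sum_le_card_mul_sum_sq (s := (Finset.univ : Finset (Fin K → Bool))) (f := a)
  have h2 : ((Finset.univ : Finset (Fin K → Bool)).card : ℝ) = 2 ^ K := by
    simp
  rw [h2] at h1
  rw [div_pow, div_le_div_iff₀ (by positivity) (by positivity)]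
  calc (∑ y, a y) ^ 2 * 2 ^ K ≤ (2 ^ K * ∑ y, a y ^ 2) * 2 ^ K :=
        mul_le_mul_of_nonneg_right h1 (by positivity)
    _ = (∑ y, a y ^ 2) * (2 ^ K) ^ 2 := by ring

theorem ltaux_mono (K : ℕ) (a b : (Fin K → Bool) → ℝ) (h : ∀ y, a y ≤ b y) : EK K a ≤ EK K b := by
  unfold EK
  exact div_le_div_of_nonneg_right (Finset.sum_le_sum fun y _ => h y) (by positivity)

theorem ltaux_add (K : ℕ) (a b : (Fin K → Bool) → ℝ) :
    EK K (fun y => a y + b y) = EK K a + EK K b := by
  unfold EK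
  rw [Finset.sum_add_distrib, add_div]

theorem ltaux_ou1 (D : ℕ) (β : ℕ → ℝ) :
    ou1 (∑ k ∈ Finset.range D, Polynomial.C (β k) * He k) =
      -(∑ k ∈ Finset.range D, Polynomial.C (k * β k) * He k) := by
  have h1 : ∀ Q R : Polynomial ℝ, ou1 (Q + R) = ou1 Q + ou1 R := by
    intro Q R
    unfold ou1
    simp only [Polynomial.derivative_add]
    ring
  have h2 : ∀ (c : ℝ) (Q : Polynomial ℝ), ou1 (Polynomial.C c * Q) = Polynomial.C c * ou1 Q := by
    intro c Q
    unfold ou1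
    simp only [Polynomial.derivative_C_mul]
    ring
  induction D with
  | zero =>
    simp [ou1]
  | succ D ih =>
    rw [Finset.sum_range_succ, Finset.sum_range_succ, h1, ih, h2, He_props.2 D,
      Polynomial.C_mul]
    ring

theorem lim_theta (θ : ℝ → ℝ) (hθ : Continuous θ) (hθ1 : ∀ s, |θ s| ≤ 1) (D : ℕ) (β : ℕ → ℝ) :
    Tendsto (fun K : ℕ => EK K (fun y => (∑ k ∈ Finset.range D, k * β k * hK K k y) *
        θ (SK K y))) atTop
      (𝓝 (- ∫ s, (ou1 (∑ k ∈ Finset.range D, Polynomial.C (β k) * He k)).eval s * θ s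
        ∂(gaussianReal 0 1))) := by
  obtain ⟨P, hP⟩ : ∃ P, P = ∑ k ∈ Finset.range D, Polynomial.C ((k : ℝ) * β k) * He k := ⟨_, rfl⟩
  rw [ltaux_ou1, ← hP]
  have hlim : (- ∫ s, (-P).eval s * θ s ∂(gaussianReal 0 1)) =
      0 + ∫ s, P.eval s * θ s ∂(gaussianReal 0 1) := by
    rw [← integral_neg, zero_add]
    congr 1
    funext s
    rw [Polynomial.eval_neg]
    ring
  rw [hlim]
  have hsplit : ∀ K : ℕ, EK K (fun y => (∑ k ∈ Finset.range D, k * β k * hK K k y) *
        θ (SK K y)) =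
      EK K (fun y => ((∑ k ∈ Finset.range D, ((k : ℝ) * β k) * hK K k y) - P.eval (SK K y)) *
        θ (SK K y)) + EK K (fun y => P.eval (SK K y) * θ (SK K y)) := by
    intro K
    rw [← ltaux_add]
    congr 1
    funext y
    ring
  simp_rw [hsplit]
  refine Tendsto.add ?_ ?_
  · have h1 := FK_tendsto D (fun k => (k : ℝ) * β k)
    rw [← hP] at h1
    have h2 : Tendsto (fun K : ℕ => √(EK K (fun y =>
        ((∑ k ∈ Finset.range D, ((k : ℝ) * β k) * hK K k y) - P.eval (SK K y)) ^ 2))) atTop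
        (𝓝 0) := by
      have := (Real.continuous_sqrt.tendsto 0).comp h1
      rwa [Real.sqrt_zero] at this
    refine squeeze_zero_norm ?_ h2
    intro K
    rw [Real.norm_eq_abs]
    apply Real.abs_le_sqrt
    refine (ltaux_cs K _).trans (ltaux_mono K _ _ ?_)
    intro y
    rw [mul_pow]
    have h3 : θ (SK K y) ^ 2 ≤ 1 := by
      rw [← sq_abs]
      exact pow_le_one₀ (abs_nonneg _) (hθ1 _)
    exact mul_le_of_le_one_right (sq_nonneg _) h3
  · obtain ⟨C, r, hC⟩ := ltaux_poly P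
    refine clt_poly (fun s => P.eval s * θ s) (P.continuous.mul hθ) C r ?_
    intro s
    beta_reduce
    rw [abs_mul]
    exact (mul_le_of_le_one_right (abs_nonneg _) (hθ1 s)).trans (hC s)

end HC
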