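import Pool.Agent.Helper540.HC.Defs

open MeasureTheory ProbabilityTheory Set Filter
open scoped ENNReal NNReal Topology

namespace HC



theorem walsh_group (K D : ℕ) (γ : ℕ → ℝ) (hγ : ∀ k, D ≤ k → γ k = 0) (y : Fin K → Bool) :
    ∑ A : Finset (Fin K), γ A.card * walsh A y = ∑ k ∈ Finset.range D, γ k * eK K k y := by
  have h1 : ∀ k, γ k * eK K k y =
      ∑ A : Finset (Fin K), if A.card = k then γ k * walsh A y else 0 := by
    intro k
    unfold eK
    rw [Finset.mul_sum, ← Finset.sum_filter]
    refine Finset.sum_congr ?_ fun _ _ => rfl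
    ext A
    simp [Finset.mem_powersetCard]
  simp_rw [h1]
  rw [Finset.sum_comm]
  refine Finset.sum_congr rfl fun A _ => ?_
  rw [Finset.sum_ite_eq]
  split_ifs with h
  · rfl
  · rw [hγ A.card (by simpa using h), zero_mul]

end HC
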