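import Pool.Agent.Helper540.HS.Data
import Pool.Agent.Helper540.HC.P_phi_props
import Pool.Agent.Helper540.HC.P_phi_lip
import Pool.Agent.Helper540.HC.P_hermite_expand
import Pool.Agent.Helper540.HC.P_He_props
import Pool.Agent.Helper540.HC.P_eK_rec
import Pool.Agent.Helper540.HC.P_hK_rec
import Pool.Agent.Helper540.HC.P_moments
import Pool.Agent.Helper540.HC.P_hK_tendsto
import Pool.Agent.Helper540.HC.P_clt_bdd
import Pool.Agent.Helper540.HC.P_clt_poly
import Pool.Agent.Helper540.HC.P_FK_tendsto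
import Pool.Agent.Helper540.HC.P_lim_phi
import Pool.Agent.Helper540.HC.P_lim_theta
import Pool.Agent.Helper540.HC.P_fin_phi
import Pool.Agent.Helper540.HC.P_fin_low
import Pool.Agent.Helper540.HC.P_walsh_group
import Pool.Agent.Helper540.HC.P_block
import Pool.Agent.Helper540.HC.P_hK_neg

open MeasureTheory ProbabilityTheory Set Filter
open scoped ENNReal NNReal Topology

namespace HC

theorem cube_main (p : ℝ) (hp1 : 1 < p) (hp2 : p < 2) (C : ℝ) (hC : 0 < C) :
    ∃ n d : ℕ, 1 ≤ n ∧ 1 ≤ d ∧ ∃ c : Finset (Fin n) → ℝ, (∀ S, d < S.card → c S = 0) ∧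
      (C * (d : ℝ)) ^ p * ∑ x : Fin n → Bool,
          |∑ S : Finset (Fin n), c S * ∏ i ∈ S, (if x i then (1 : ℝ) else -1)| ^ p <
      ∑ x : Fin n → Bool, |∑ S : Finset (Fin n), (S.card : ℝ) * c S *
          ∏ i ∈ S, (if x i then (1 : ℝ) else -1)| ^ p := by
  have hp0 : 0 < p := by linarith
  obtain ⟨d, n, Q, θ, C2, hd, hn, hQd, hodd, hθc, hθ1, hC2, hup, hlow⟩ :=
    HS.data p hp1 hp2 ⟨C, hC.le⟩
  obtain ⟨ph0, ph1, ph2, ph3, ph4⟩ := phi_props p hp0 hp2.le
  obtain ⟨β, hβe, hβd, hQβ⟩ := hermite_expand Q hodd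
  set D := Q.natDegree + 1 with hD
  -- limits
  have hup' : 1 + n * ∫ s, phi p (Q.eval s) ∂(gaussianReal 0 1) ≤ C2 := by
    have e1 : ∫ s, phi p (Q.eval s) ∂(gaussianReal 0 1) =
        (∫⁻ s, ENNReal.ofReal (phi p (Q.eval s)) ∂(gaussianReal 0 1)).toReal := by
      rw [integral_eq_lintegral_of_nonneg_ae]
      · exact Eventually.of_forall (fun s => ph0 _)
      · apply Measurable.aestronglyMeasurable
        unfold phi
        have := Q.continuous.measurable
        fun_prop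
    have h2 : ((n : ℝ≥0∞) * ∫⁻ s, ENNReal.ofReal (phi p (Q.eval s)) ∂(gaussianReal 0 1)).toReal
        ≤ C2 - 1 := by
      refine ENNReal.toReal_le_of_le_ofReal (by linarith) hup
    rw [ENNReal.toReal_mul, ENNReal.toReal_natCast] at h2
    rw [e1]
    linarith
  have hl1 := lim_phi p hp0 hp2.le D β
  rw [← hQβ] at hl1
  have hl2 := lim_theta θ hθc hθ1 D β
  rw [← hQβ] at hl2
  have hl3 : Tendsto (fun K : ℕ => EK K (fun y => (θ (SK K y)) ^ 2)) atTop
      (𝓝 (∫ s, (θ s) ^ 2 ∂(gaussianReal 0 1))) := by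
    apply clt_bdd (fun s => θ s ^ 2) (by fun_prop) 1
    intro s
    rw [abs_pow]
    exact pow_le_one₀ (abs_nonneg _) (hθ1 s)
  set U : ℕ → ℝ := fun K => 1 + n * EK K (fun y => phi p (∑ k ∈ Finset.range D, β k * hK K k y))
    with hU
  set L : ℕ → ℝ := fun K => n * |EK K (fun y => (∑ k ∈ Finset.range D, k * β k * hK K k y) *
        θ (SK K y))| * (1 - EK K (fun y => (θ (SK K y)) ^ 2)) ^ (n - 1) with hL
  have hUlim : Tendsto U atTop (𝓝 (1 + n * ∫ s, phi p (Q.eval s) ∂(gaussianReal 0 1))) :=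
    (hl1.const_mul _).const_add _
  have hLlim : Tendsto L atTop (𝓝 (n * |(- ∫ s, (ou1 Q).eval s * θ s ∂(gaussianReal 0 1))| *
      (1 - ∫ s, (θ s) ^ 2 ∂(gaussianReal 0 1)) ^ (n - 1))) :=
    ((hl2.abs).const_mul _).mul ((hl3.const_sub _).pow _)
  set Linf := n * |(- ∫ s, (ou1 Q).eval s * θ s ∂(gaussianReal 0 1))| *
      (1 - ∫ s, (θ s) ^ 2 ∂(gaussianReal 0 1)) ^ (n - 1) with hLinf
  set Uinf := 1 + n * ∫ s, phi p (Q.eval s) ∂(gaussianReal 0 1) with hUinf
  have hdpos : (0:ℝ) < d := by exact_mod_cast hd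
  have hlow' : C * d * C2 < Linf := by
    rw [hLinf, abs_neg]
    exact hlow
  have hlt : (C * d) ^ p * Uinf < Linf ^ p := by
    calc (C * d) ^ p * Uinf ≤ (C * d) ^ p * C2 := by gcongr
      _ ≤ (C * d) ^ p * C2 ^ p := by
          gcongr
          calc C2 = C2 ^ (1:ℝ) := by rw [Real.rpow_one]
            _ ≤ C2 ^ p := Real.rpow_le_rpow_of_exponent_le hC2 hp1.le
      _ = (C * d * C2) ^ p := by rw [← Real.mul_rpow (by positivity) (by linarith)]
      _ < Linf ^ p := Real.rpow_lt_rpow (by positivity) hlow' hp0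
  have hev : ∀ᶠ K in atTop, (C * d) ^ p * U K < (L K) ^ p := by
    have h1 : Tendsto (fun K => (C * d) ^ p * U K) atTop (𝓝 ((C * d) ^ p * Uinf)) :=
      hUlim.const_mul _
    have h2 : Tendsto (fun K => (L K) ^ p) atTop (𝓝 (Linf ^ p)) :=
      hLlim.rpow_const (Or.inr hp0.le)
    exact h1.eventually_lt h2 hlt
  obtain ⟨K, hK1, hK2⟩ := (hev.and (eventually_ge_atTop 1)).exists
  -- the function on the cube
  set γ : ℕ → ℝ := fun k => β k * ((k.factorial : ℝ) * ((√K)⁻¹) ^ k) with hγ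
  have hγd : ∀ k, d < k → γ k = 0 := by
    intro k hk
    rw [hγ]
    simp only
    rw [hβd k (by omega), zero_mul]
  have hγD : ∀ k, D ≤ k → γ k = 0 := by
    intro k hk
    rw [hγ]
    simp only
    rw [hβd k (by omega), zero_mul]
  obtain ⟨c, hc1, hc2, hc3⟩ := block n K d γ hγd
  have hF : ∀ y : Fin K → Bool, ∑ A : Finset (Fin K), γ A.card * walsh A y =
      ∑ k ∈ Finset.range D, β k * hK K k y := by
    intro y
    rw [walsh_group K D γ hγD y]
    apply Finset.sum_congr rfl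
    intro k _
    rw [hγ, hK]; ring
  have hG : ∀ y : Fin K → Bool, ∑ A : Finset (Fin K), (A.card : ℝ) * γ A.card * walsh A y =
      ∑ k ∈ Finset.range D, k * β k * hK K k y := by
    intro y
    have := walsh_group K D (fun k => k * γ k) (fun k hk => by rw [hγD k hk, mul_zero]) y
    refine Eq.trans this ?_
    apply Finset.sum_congr rfl
    intro k _
    rw [hγ, hK]; ring
  refine ⟨n * K, d, Nat.mul_pos hn hK2, hd, c, hc1, ?_⟩
  rw [hc2 (fun t => |t| ^ p), hc3 (fun t => |t| ^ p)]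
  simp only [hF, hG]
  have hcard : (Fintype.card (Fin K → Bool) : ℝ) = 2 ^ K := by
    simp
  have hcardn : (Fintype.card (Fin n → Fin K → Bool) : ℝ) = (2 ^ K) ^ n := by
    simp
  have hpos : (0:ℝ) < (2 ^ K) ^ n := by positivity
  set F : (Fin K → Bool) → ℝ := fun y => ∑ k ∈ Finset.range D, β k * hK K k y with hFdef
  set G : (Fin K → Bool) → ℝ := fun y => ∑ k ∈ Finset.range D, k * β k * hK K k y with hGdef
  have hFodd : ∀ y, F (fun i => !(y i)) = - F y := by
    intro y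
    rw [hFdef]
    simp only
    rw [← Finset.sum_neg_distrib]
    apply Finset.sum_congr rfl
    intro k _
    rw [hK_neg]
    rcases Nat.even_or_odd k with hk | hk
    · rw [hβe k hk]; ring
    · rw [hk.neg_one_pow]; ring
  -- upper bound
  have hupper : ∑ x : Fin n → Fin K → Bool, |∑ j, F (x j)| ^ p ≤ (2 ^ K) ^ n * U K := by
    have h1 : ∑ x : Fin n → Fin K → Bool, |∑ j, F (x j)| ^ p ≤
        ∑ x : Fin n → Fin K → Bool, (1 + phi p (∑ j, F (x j))) :=
      Finset.sum_le_sum (fun x _ => ph3 _)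
    have h2 := fin_phi p hp0 hp2.le F
      ⟨fun y i => !(y i), fun y i => !(y i), fun y => by ext i; simp, fun y => by ext i; simp⟩
      hFodd n
    rw [hcard, div_le_iff₀ hpos] at h2
    rw [Finset.sum_add_distrib] at h1
    simp only [Finset.sum_const, Finset.card_univ, nsmul_eq_mul, mul_one] at h1
    rw [hcardn] at h1
    rw [hU]
    simp only
    rw [EK]
    calc _ ≤ _ := h1
      _ ≤ (2 ^ K) ^ n + n * ((∑ y, phi p (F y)) / 2 ^ K) * (2 ^ K) ^ n := by gcongr
      _ = _ := by ring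
  -- lower bound
  have hL0 : 0 ≤ L K := by
    rw [hL]
    simp only
    apply mul_nonneg (by positivity)
    apply pow_nonneg
    have : EK K (fun y => θ (SK K y) ^ 2) ≤ 1 := by
      rw [EK, div_le_one (by positivity)]
      calc ∑ y : Fin K → Bool, θ (SK K y) ^ 2 ≤ ∑ y : Fin K → Bool, (1:ℝ) := by
            apply Finset.sum_le_sum
            intro y _
            rw [← sq_abs]
            exact pow_le_one₀ (abs_nonneg _) (hθ1 _)
        _ = 2 ^ K := by simp
    linarith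
  have hlower : (2 ^ K) ^ n * (L K) ^ p ≤ ∑ x : Fin n → Fin K → Bool, |∑ j, G (x j)| ^ p := by
    have h1 := fin_low G (fun y => θ (SK K y)) (fun y => hθ1 _) n hn
    rw [hcard] at h1
    have h2 : L K ≤ (∑ x : Fin n → Fin K → Bool, |∑ j, G (x j)|) / (2 ^ K) ^ n := by
      rw [hL]
      simp only
      rw [EK, EK]
      exact h1
    have h3 := Real.rpow_arith_mean_le_arith_mean_rpow (Finset.univ : Finset (Fin n → Fin K → Bool))
      (fun _ => ((2 ^ K) ^ n : ℝ)⁻¹) (fun x => |∑ j, G (x j)|) (fun _ _ => by positivity)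
      (by simp only [Finset.sum_const, Finset.card_univ, nsmul_eq_mul]
          rw [hcardn]; field_simp)
      (fun _ _ => abs_nonneg _) hp1.le
    rw [← Finset.mul_sum, ← Finset.mul_sum] at h3
    have h4 : (L K) ^ p ≤ ((2 ^ K) ^ n : ℝ)⁻¹ * ∑ x : Fin n → Fin K → Bool, |∑ j, G (x j)| ^ p := by
      refine le_trans ?_ h3
      apply Real.rpow_le_rpow hL0 _ hp0.le
      rw [div_eq_inv_mul] at h2
      exact h2
    calc (2 ^ K) ^ n * (L K) ^ p ≤ (2 ^ K) ^ n * (((2 ^ K) ^ n : ℝ)⁻¹ *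
          ∑ x : Fin n → Fin K → Bool, |∑ j, G (x j)| ^ p) := by gcongr
      _ = _ := by field_simp
  calc (C * d) ^ p * ∑ x : Fin n → Fin K → Bool, |∑ j, F (x j)| ^ p
      ≤ (C * d) ^ p * ((2 ^ K) ^ n * U K) := by gcongr
    _ = (2 ^ K) ^ n * ((C * d) ^ p * U K) := by ring
    _ < (2 ^ K) ^ n * (L K) ^ p := by gcongr
    _ ≤ _ := hlower

end HC
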