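import Mathlib

open MeasureTheory ProbabilityTheory Set Filter
open scoped ENNReal NNReal Topology

namespace HC

/-- auxiliary function `(1+t^2)^(p/2) - 1` -/
noncomputable def phi (p t : ℝ) : ℝ := (1 + t ^ 2) ^ (p / 2) - 1

/-- one-dimensional Ornstein-Uhlenbeck operator on polynomials -/
noncomputable def ou1 (Q : Polynomial ℝ) : Polynomial ℝ :=
  Polynomial.derivative (Polynomial.derivative Q) - Polynomial.X * Polynomial.derivative Q

/-- Hermite polynomial with real coefficients -/
noncomputable def He (k : ℕ) : Polynomial ℝ := (Polynomial.hermite k).map (Int.castRingHom ℝ)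

/-- Walsh function -/
noncomputable def walsh {ι : Type} (S : Finset ι) (x : ι → Bool) : ℝ :=
  ∏ i ∈ S, (if x i then (1 : ℝ) else -1)

/-- normalised sum of the coordinates -/
noncomputable def SK (K : ℕ) (y : Fin K → Bool) : ℝ :=
  (√K)⁻¹ * ∑ i, (if y i then (1 : ℝ) else -1)

/-- elementary symmetric function of the coordinates -/
noncomputable def eK (K k : ℕ) (y : Fin K → Bool) : ℝ :=
  ∑ A ∈ Finset.powersetCard k (Finset.univ : Finset (Fin K)), walsh A y

/-- its normalisation, which tends to the Hermite polynomial -/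
noncomputable def hK (K k : ℕ) (y : Fin K → Bool) : ℝ :=
  (k.factorial : ℝ) * ((√K)⁻¹) ^ k * eK K k y

/-- expectation on the cube -/
noncomputable def EK (K : ℕ) (g : (Fin K → Bool) → ℝ) : ℝ := (∑ y, g y) / 2 ^ K

end HC
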